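import Pool.Agent.N929.EZ.Lib2
import Pool.Agent.H739K.CONV
import Pool.Agent.H981R2.Plain
import Pool.Agent.TH508.LT.Fin2

/-!
# Polygons as words
-/

set_option autoImplicit false
set_option linter.unusedVariables false

namespace Pool.Agent.N929.EZ

open Pool.Agent.H976R2 Pool.Agent.H976R2.Dir Finset Filter Topology
open Pool.Agent.N929.EX Pool.Agent.N929.EY
open scoped Classical

noncomputable section

theorem mu_eq {μ K : ℝ} (hμ : 2.43 ≤ μ) (hK : 0 ≤ K) (hlow : ∀ n : ℕ, μ ^ n ≤ ((SW n).card : ℝ))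
    (hupp : ∀ m n : ℕ, 2 ≤ n → m ≤ n →
      ((SW m).card : ℝ) ≤ 4 * (μ ^ m * Real.exp (K * Real.log n ^ 2))) : μ = H981.mu := by
  have h1 := root_lim hμ hK hlow hupp
  have h2 := H981.tendsto_root
  refine tendsto_nhds_unique h1 (h2.congr (fun n => ?_))
  rw [H981.cr'_eq]
  congr 1
  have e : {ω : Fin (n + 1) → ℤ × ℤ | Pool.Agent.H976R2.IsSAW n ω}.ncard = (SW n).card := ncard_saw n
  rw [← e]
  rfl

theorem PP_len (w : List Dir) : Lip.PP w w.length = (wX w, wY w) := by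
  unfold Lip.PP
  rw [List.take_length]

/-- the closed words -/
def cl (w : List Dir) : ℝ := if sq w = 1 then 1 else 0

theorem cl_iv (D : Set (ℤ × ℤ)) : Iv D cl 0 0 := by
  have h := iv_end D (fun x => if ((x.1 : ℝ) ^ 2 + (x.2 : ℝ) ^ 2 = 1) then 1 else 0)
  have e : (fun w : List Dir => (fun x : ℤ × ℤ => if ((x.1 : ℝ) ^ 2 + (x.2 : ℝ) ^ 2 = 1)
      then (1 : ℝ) else 0) (Lip.PP w w.length)) = cl := by
    funext w
    show (if _ then (1 : ℝ) else 0) = cl w
    rw [PP_len]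
    rfl
  rw [e] at h
  exact h

theorem cl_nonneg (w : List Dir) : 0 ≤ cl w := by
  unfold cl
  split_ifs <;> norm_num

theorem cl_le (w : List Dir) : cl w ≤ 1 := by
  unfold cl
  split_ifs <;> norm_num

theorem sum_cl (n : ℕ) (F : List Dir → ℝ) :
    ∑ w ∈ SW n, cl w * F w = ∑ w ∈ Pool.Agent.H739K.KP n, F w := by
  unfold Pool.Agent.H739K.KP
  rw [sum_filter]
  refine sum_congr rfl (fun w _ => ?_)
  unfold cl
  split_ifs <;> simp

/-- the number of closed words and the number of polygons -/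
theorem KP_card {N : ℕ} (hN : 2 ≤ N) :
    ((Pool.Agent.H739K.KP (2 * N - 1)).card : ℝ) = 4 * N * H981.PP N := by
  have h := (Pool.Agent.H739K.CONV_proof N hN).2.1
  unfold H981.PP
  have hN0 : (0 : ℝ) < N := by exact_mod_cast (by omega : 0 < N)
  have e : (Nat.card {f : ZMod (2 * N) → ℤ × ℤ // H981.IsLoop (2 * N) f}) =
      {f : ZMod (2 * N) → ℤ × ℤ | Pool.Agent.H924P.IsLoop (2 * N) f}.ncard := rfl
  rw [e, h]
  field_simp

/-- comparison of walks and polygons -/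
theorem KP_low : ∃ K : ℝ, 0 ≤ K ∧ ∀ n : ℕ, 3 ≤ n → n % 2 = 1 →
    ((SW n).card : ℝ) ≤ Real.exp (K * Real.log n ^ 2) *
      ((Pool.Agent.H739K.KP n).card : ℝ) := by
  obtain ⟨μ, K, hμ, hK, hlow, hupp, -⟩ := s_gen
  have hmu := mu_eq hμ hK hlow hupp
  obtain ⟨K2, hK2, h2⟩ := Pool.Agent.TH508.LT.sq_PP2
  refine ⟨K + K2 + 6, by positivity, fun n hn ho => ?_⟩
  obtain ⟨N, hN⟩ : ∃ N, n = 2 * N - 1 := ⟨(n + 1) / 2, by omega⟩
  have hN2 : 2 ≤ N := by omega
  have h3 := (h2 N hN2).1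
  have h4 := hupp n n (by omega) le_rfl
  have h5 := KP_card hN2
  rw [← hN] at h5
  have hn' : (3 : ℝ) ≤ n := by exact_mod_cast hn
  have hlog : (0.69 : ℝ) ≤ Real.log n := by
    have := Real.log_two_gt_d9
    have h3 : Real.log 2 ≤ Real.log n := Real.log_le_log (by norm_num) (by linarith)
    linarith
  have hlog2 : (0.476 : ℝ) ≤ Real.log n ^ 2 := by nlinarith
  have hN' : (2 : ℝ) ≤ N := by exact_mod_cast hN2
  have hNn : (N : ℝ) ≤ n := by exact_mod_cast (by omega : N ≤ n)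
  have hlN : Real.log N ^ 2 ≤ Real.log n ^ 2 := by
    have h6 : Real.log N ≤ Real.log n := Real.log_le_log (by linarith) hNn
    have h7 : 0 ≤ Real.log N := Real.log_nonneg (by linarith)
    exact pow_le_pow_left₀ h7 h6 2
  rw [← hmu] at h3
  have hμ0 : 0 < μ := by linarith
  have hμ1 : 1 ≤ μ := by linarith
  rw [h5]
  have h8 : μ ^ n ≤ μ ^ (2 * N) := pow_le_pow_right₀ hμ1 (by omega)
  have h9 : Real.exp (K2 * Real.log N ^ 2) ≤ Real.exp (K2 * Real.log n ^ 2) :=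
    Real.exp_le_exp.mpr (mul_le_mul_of_nonneg_left hlN hK2)
  have h10 : μ ^ (2 * N) ≤ Real.exp (K2 * Real.log N ^ 2) * H981.PP N := by
    calc μ ^ (2 * N) = Real.exp (K2 * Real.log N ^ 2) *
          (μ ^ (2 * N) * Real.exp (-(K2 * Real.log N ^ 2))) := by
          rw [mul_left_comm, ← Real.exp_add, add_neg_cancel, Real.exp_zero, mul_one]
      _ ≤ _ := mul_le_mul_of_nonneg_left h3 (Real.exp_pos _).le
  have hPP : 0 ≤ H981.PP N := by
    have := h3
    exact le_trans (by positivity) this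
  have h11 : (1 : ℝ) ≤ Real.exp (6 * Real.log n ^ 2) := Real.one_le_exp (by positivity)
  calc ((SW n).card : ℝ) ≤ 4 * (μ ^ n * Real.exp (K * Real.log n ^ 2)) := h4
    _ ≤ 4 * ((Real.exp (K2 * Real.log n ^ 2) * H981.PP N) * Real.exp (K * Real.log n ^ 2)) := by
        gcongr
        exact h8.trans (h10.trans (mul_le_mul_of_nonneg_right h9 hPP))
    _ = Real.exp ((K + K2) * Real.log n ^ 2) * (4 * 1 * H981.PP N) := by
        rw [add_mul K K2, Real.exp_add]
        ring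
    _ ≤ Real.exp ((K + K2) * Real.log n ^ 2) * Real.exp (6 * Real.log n ^ 2) *
          (4 * N * H981.PP N) := by
        have a1 : (4 : ℝ) * 1 * H981.PP N ≤ 4 * N * H981.PP N := by gcongr; linarith
        have a2 : Real.exp ((K + K2) * Real.log n ^ 2) ≤
            Real.exp ((K + K2) * Real.log n ^ 2) * Real.exp (6 * Real.log n ^ 2) :=
          le_mul_of_one_le_right (Real.exp_pos _).le h11
        gcongr
    _ = Real.exp ((K + K2 + 6) * Real.log n ^ 2) * (4 * N * H981.PP N) := by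
        rw [← Real.exp_add]
        ring_nf

/-- alternating sums of constants -/
theorem alt_const {r : ℕ} (hr : 1 ≤ r) (c : ℝ) :
    ∑ i ∈ range (r + 1), (-1 : ℝ) ^ i * (r.choose i : ℝ) * c = 0 := by
  have := Pool.Agent.N507.EZ.Df_const hr c 0
  unfold Df at this
  exact this

/-- comparison of the rates -/
theorem rate_two {n : ℕ} (hn : 2 ≤ n) (r : ℕ) :
    (Real.log ((2 * n - 1 : ℕ) : ℝ) / Real.sqrt ((2 * n - 1 : ℕ) : ℝ)) ^ r ≤
      2 ^ r * (Real.log n / Real.sqrt n) ^ r := by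
  have hn' : (2 : ℝ) ≤ n := by exact_mod_cast hn
  have h0 : (n : ℝ) ≤ ((2 * n - 1 : ℕ) : ℝ) := by exact_mod_cast (by omega : n ≤ 2 * n - 1)
  have h1 : ((2 * n - 1 : ℕ) : ℝ) ≤ (n : ℝ) ^ 2 := by
    have : ((2 * n - 1 : ℕ) : ℝ) ≤ ((2 * n : ℕ) : ℝ) := by exact_mod_cast (by omega : 2 * n - 1 ≤ 2 * n)
    push_cast at this
    nlinarith
  have hl : 0 ≤ Real.log ((2 * n - 1 : ℕ) : ℝ) := Real.log_nonneg (by linarith)
  rw [← mul_pow]
  refine pow_le_pow_left₀ (by positivity) ?_ r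
  have h2 : Real.log ((2 * n - 1 : ℕ) : ℝ) ≤ 2 * Real.log n := by
    have := Real.log_le_log (by linarith) h1
    rwa [Real.log_pow] at this
  have h3 : Real.sqrt n ≤ Real.sqrt ((2 * n - 1 : ℕ) : ℝ) := Real.sqrt_le_sqrt h0
  have h4 : 0 < Real.sqrt n := Real.sqrt_pos.mpr (by linarith)
  calc Real.log ((2 * n - 1 : ℕ) : ℝ) / Real.sqrt ((2 * n - 1 : ℕ) : ℝ)
      ≤ Real.log ((2 * n - 1 : ℕ) : ℝ) / Real.sqrt n := by gcongr
    _ ≤ 2 * Real.log n / Real.sqrt n := by gcongr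
    _ = 2 * (Real.log n / Real.sqrt n) := by ring

end

end Pool.Agent.N929.EZ
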