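import Pool.Agent.N929.EZ.Stm

/-!
# Regularity to all orders, functionals that depend on the occupied slots: statements
-/

set_option autoImplicit false
set_option linter.unusedVariables false

namespace Pool.Agent.N929.EZ

open Pool.Agent.H976R2 Pool.Agent.H976R2.Dir Finset
open Pool.Agent.N929.EX Pool.Agent.N929.EY
open scoped Classical

noncomputable section

/-- the slots of a walk in the window between the first `a` and the last `l` steps -/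
def Sl (L : Finset (ℤ × ℤ)) (a l : ℕ) (w : List Dir) : Finset (ℤ × ℤ) :=
  DD L 1 (a, w.length - l) w

/-- the occupied slots of a walk in the window -/
def Oc (L : Finset (ℤ × ℤ)) (a l : ℕ) (w : List Dir) : Finset (ℤ × ℤ) :=
  OO L 1 (a, w.length - l) w

/-- `w` is a self-avoiding walk with at least `a + l` steps without occupied slots in the
window -/
def Em (L : Finset (ℤ × ℤ)) (a l : ℕ) (w : List Dir) : Prop :=
  a + l ≤ w.length ∧ w ∈ SW w.length ∧ Oc L a l w = ∅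

/-- `fl w U` is obtained from `w` (without occupied slots) by occupying the slots in `U`; `st`
frees all the slots -/
structure Fill (L : Finset (ℤ × ℤ)) (a l : ℕ) (st : List Dir → List Dir)
    (fl : List Dir → Finset (ℤ × ℤ) → List Dir) : Prop where
  len : ∀ w, a + l ≤ w.length → w ∈ SW w.length → a + l + 2 * (Oc L a l w).card ≤ w.length
  st_em : ∀ w, a + l ≤ w.length → w ∈ SW w.length → Em L a l (st w)
  st_len : ∀ w, a + l ≤ w.length → w ∈ SW w.length →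
    (st w).length + 2 * (Oc L a l w).card = w.length
  st_sl : ∀ w, a + l ≤ w.length → w ∈ SW w.length → Sl L a l (st w) = Sl L a l w
  fl_st : ∀ w, a + l ≤ w.length → w ∈ SW w.length → fl (st w) (Oc L a l w) = w
  fl_sw : ∀ w U, Em L a l w → U ⊆ Sl L a l w → fl w U ∈ SW (w.length + 2 * U.card)
  fl_len : ∀ w U, Em L a l w → U ⊆ Sl L a l w → (fl w U).length = w.length + 2 * U.card
  fl_sl : ∀ w U, Em L a l w → U ⊆ Sl L a l w → Sl L a l (fl w U) = Sl L a l w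
  fl_oc : ∀ w U, Em L a l w → U ⊆ Sl L a l w → Oc L a l (fl w U) = U
  st_fl : ∀ w U, Em L a l w → U ⊆ Sl L a l w → st (fl w U) = w
  fl_empty : ∀ w, Em L a l w → fl w ∅ = w
  fl_insert : ∀ w U q, Em L a l w → U ⊆ Sl L a l w → q ∈ Sl L a l w → q ∉ U →
    (∀ x ∈ U, x.1 < q.1 ∨ (x.1 = q.1 ∧ x.2 < q.2)) →
    ∃ k, a < k ∧ k + 1 + l < w.length + 2 * U.card ∧
      Bp (w.length + 2 * U.card) k (fl w U) q (fl w (insert q U))

/-- BIJ: the walks are the pairs of a walk without occupied slots and a set of slots -/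
def S_BIJ : Prop :=
  ∀ L : Finset (ℤ × ℤ), CF L → ∀ a l : ℕ, ∃ (st : List Dir → List Dir)
    (fl : List Dir → Finset (ℤ × ℤ) → List Dir), Fill L a l st fl

/-- DFJ: iterated differences of binomial coefficients near the balance point, with `J` forbidden
slots -/
def S_DFJ : Prop :=
  ∀ (r : ℕ) (m : ℝ), 1 ≤ m → ∃ C : ℝ, 0 < C ∧ ∀ (S k J : ℕ) (ε : ℝ), 0 < ε → ε ≤ 1 →
    k ≤ S → J ≤ S → 1 ≤ ε ^ 2 * (k : ℝ) → |((S : ℝ) - k) / ((k : ℝ) + 1) - m| ≤ ε * m →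
    |∑ i ∈ range (r + 1), (-1 : ℝ) ^ i * (r.choose i : ℝ) *
      (((S - J).choose (k + i) : ℝ) / m ^ i)| ≤ C * ε ^ r * (S.choose k : ℝ)

/-- LOG: differences of logarithms -/
def S_LOG : Prop :=
  ∀ r : ℕ, 1 ≤ r → ∀ B : ℝ, 0 < B → ∃ C : ℝ, 0 < C ∧ ∀ (f : ℕ → ℝ) (n : ℕ) (ε : ℝ), 0 < ε →
    ε ≤ 1 → (∀ j, j ≤ r → 0 < f (n + j)) → (∀ j, j ≤ r → f n ≤ B * f (n + j)) →
    (∀ s j, s + j ≤ r → |Df s f (n + j)| ≤ B * ε ^ s * f n) →
    |Df r (fun j => Real.log (f j)) n| ≤ C * ε ^ r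

/-- the function `Φ` of a set `U` of slots is a combination of the indicator functions of
`U ∩ T = ∅` for sets `T` of slots, with sum of the absolute values of the coefficients at most
`M` -/
def Rp (E : Finset (ℤ × ℤ)) (Φ : Finset (ℤ × ℤ) → ℝ) (M : ℝ) : Prop :=
  ∃ v : Finset (ℤ × ℤ) → ℝ, (∑ T ∈ E.powerset, |v T|) ≤ M ∧
    ∀ U ⊆ E, Φ U = ∑ T ∈ E.powerset, if Disjoint T U then v T else 0

/-- AOF: regularity to all orders, for functionals -/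
def S_AOF : Prop :=
  ∃ μ K : ℝ, 2.43 ≤ μ ∧ 0 ≤ K ∧ (∀ n : ℕ, μ ^ n ≤ ((SW n).card : ℝ)) ∧
    (∀ m n : ℕ, 2 ≤ n → m ≤ n →
      ((SW m).card : ℝ) ≤ 4 * (μ ^ m * Real.exp (K * Real.log n ^ 2))) ∧
    ∀ r : ℕ, ∃ A C : ℝ, 0 < A ∧ 0 < C ∧ ∀ (n a l : ℕ) (ε : ℝ), 2 ≤ n → 2 * (a + l) ≤ n →
      0 < ε → ε ≤ 1 → A * Real.log n ^ 2 ≤ ε ^ 2 * n →
      ∀ D : Set (ℤ × ℤ), ∃ L : Finset (ℤ × ℤ), CF L ∧ (∀ q ∈ L, Cs D q) ∧
        ∀ st fl, Fill L a l st fl → ∀ (F M : List Dir → ℝ) (B : ℝ), 0 ≤ B → (∀ w, 0 ≤ M w) →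
          (∀ i ∈ range (r + 1), ∀ w ∈ SW (n + 2 * i), |F w| ≤ B) →
          (∀ w, F w ≠ 0 → ∀ t, t ≤ w.length → Lip.PP w t ∈ D) →
          (∀ w, Em L a l w → Rp (Sl L a l w) (fun U => F (fl w U)) (M w)) →
          |∑ i ∈ range (r + 1), (-1 : ℝ) ^ i * (r.choose i : ℝ) *
            ((∑ w ∈ SW (n + 2 * i), F w) / μ ^ (2 * i))| ≤
            C * (ε ^ r * (∑ w ∈ SW n, M (st w)) +
              B * (Real.exp (-(ε ^ 2 * n / A)) * ((SW n).card : ℝ)))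

/-- FIN: from the differences with error terms to the differences of the logarithms -/
def S_FIN : Prop :=
  ∀ (μ : ℝ) (P : ℕ → Prop) (T E : ℕ → ℝ), 1 ≤ μ → (∀ n, P n → 2 ≤ n) → (∀ n, P n → P (n + 2)) →
    (∀ n, P n → 0 < T n) → (∀ n, 0 ≤ E n) →
    (∃ K : ℝ, 0 ≤ K ∧ ∀ n, P n → E n ≤ Real.exp (K * Real.log n ^ 2) * T n) →
    (∀ r : ℕ, ∃ A C : ℝ, 0 < A ∧ 0 < C ∧ ∀ (n : ℕ) (ε : ℝ), P n → 0 < ε → ε ≤ 1 →
      A * Real.log n ^ 2 ≤ ε ^ 2 * n →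
      |∑ i ∈ range (r + 1), (-1 : ℝ) ^ i * (r.choose i : ℝ) * (T (n + 2 * i) / μ ^ (2 * i))| ≤
        C * (ε ^ r * T n + Real.exp (-(ε ^ 2 * n / A)) * E n)) →
    ∀ r : ℕ, 1 ≤ r → ∃ C : ℝ, 0 < C ∧ ∀ n : ℕ, P n →
      |∑ i ∈ range (r + 1), (-1 : ℝ) ^ i * (r.choose i : ℝ) *
        Real.log (T (n + 2 * i) / μ ^ (n + 2 * i))| ≤ C * (Real.log n / Real.sqrt n) ^ r

end

end Pool.Agent.N929.EZ
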