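import Pool.Agent.N929.EZ.Unb

/-!
# Regularity to all orders: the assembly
-/

set_option autoImplicit false
set_option linter.unusedVariables false

namespace Pool.Agent.N929.EZ

open Pool.Agent.H976R2 Pool.Agent.H976R2.Dir Finset
open Pool.Agent.N929.EX Pool.Agent.N929.EY
open scoped Classical

noncomputable section

theorem ao (hcl : S_CL1) (hdif : S_DIF) (hmv : S_MV) (hrat : S_RAT) (hfam : S_FAM3)
    (hup : S_UP) : S_AO := by
  obtain ⟨μ, K, hμ, hK, hlow, hupp⟩ := hup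
  refine ⟨μ, K, hμ, hK, hlow, hupp, fun r => ?_⟩
  obtain ⟨c, C₀, hc, hC₀, hf⟩ := hfam
  have hμ1 : 1 ≤ μ := by linarith
  obtain ⟨C₁, hC₁, hg⟩ := good hcl hdif r
  obtain ⟨A, C₂, hA, hC₂, hu⟩ := unb hmv hrat hc hC₀ hμ1 hK hlow hupp r
  refine ⟨A, C₁ + 2 ^ r * C₂, hA, by positivity, ?_⟩
  intro n a l ε hn hal hε hε1 hAn D F hF hD hI
  obtain ⟨L, hL, hLD, hfa⟩ := hf n hn D
  have hμ0 : 0 < μ := by linarith
  have hg' := hg n a l (μ ^ 2) ε (by omega) (one_le_pow₀ hμ1) hε hε1 D F L (fun w => (hF w).1)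
    hI hL hLD
  obtain ⟨E, hE⟩ : ∃ E : ℝ, E = Real.exp (-(ε ^ 2 * n / A)) * ((SW n).card : ℝ) := ⟨_, rfl⟩
  rw [← hE]
  have hE0 : 0 ≤ E := by rw [hE]; positivity
  -- the remaining walks
  have hbad : ∀ i ∈ range (r + 1), |(∑ w ∈ SW (n + 2 * i), F w) / μ ^ (2 * i) -
      (∑ w ∈ GG L (μ ^ 2) ε n a l i, F w) / (μ ^ 2) ^ i| ≤ C₂ * E := by
    intro i hi
    rw [mem_range] at hi
    have h1 := hu n a l i ε hn hal (by omega) hε hε1 hAn D L hL hfa
    rw [← pow_mul, ← sub_div]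
    have h2 : (∑ w ∈ SW (n + 2 * i), F w) - (∑ w ∈ GG L (μ ^ 2) ε n a l i, F w) =
        ∑ w ∈ (SW (n + 2 * i)).filter (fun w => ¬ Bal (μ ^ 2) ε i
          (DD L 1 (a, n + 2 * i - l) w).card (OO L 1 (a, n + 2 * i - l) w).card), F w := by
      rw [GG, sub_eq_iff_eq_add]
      have := sum_filter_add_sum_filter_not (SW (n + 2 * i)) (fun w => Bal (μ ^ 2) ε i
          (DD L 1 (a, n + 2 * i - l) w).card (OO L 1 (a, n + 2 * i - l) w).card) F
      linarith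
    rw [h2, abs_of_nonneg (div_nonneg (sum_nonneg (fun w _ => (hF w).1)) (by positivity)),
      div_le_iff₀ (by positivity)]
    have h3 : ∑ w ∈ (SW (n + 2 * i)).filter (fun w => ¬ Bal (μ ^ 2) ε i
          (DD L 1 (a, n + 2 * i - l) w).card (OO L 1 (a, n + 2 * i - l) w).card), F w ≤
        (((SW (n + 2 * i)).filter (fun w => (∀ t, t ≤ n + 2 * i → Lip.PP w t ∈ D) ∧
        ¬ Bal (μ ^ 2) ε i (DD L 1 (a, n + 2 * i - l) w).card
          (OO L 1 (a, n + 2 * i - l) w).card)).card : ℝ) := by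
      have e1 : (((SW (n + 2 * i)).filter (fun w => (∀ t, t ≤ n + 2 * i → Lip.PP w t ∈ D) ∧
        ¬ Bal (μ ^ 2) ε i (DD L 1 (a, n + 2 * i - l) w).card
          (OO L 1 (a, n + 2 * i - l) w).card)).card : ℝ) =
          ∑ w ∈ (SW (n + 2 * i)).filter (fun w => ¬ Bal (μ ^ 2) ε i
          (DD L 1 (a, n + 2 * i - l) w).card (OO L 1 (a, n + 2 * i - l) w).card),
            (if (∀ t, t ≤ n + 2 * i → Lip.PP w t ∈ D) then (1 : ℝ) else 0) := by
        rw [sum_ite, sum_const, sum_const_zero, add_zero, nsmul_eq_mul, mul_one, filter_filter]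
        congr 2
        ext w
        simp only [mem_filter]
        tauto
      rw [e1]
      refine sum_le_sum (fun w hw => ?_)
      rw [mem_filter] at hw
      split_ifs with h
      · exact (hF w).2
      · by_contra hcon
        apply h
        have h4 : F w ≠ 0 := fun h5 => hcon (le_of_eq h5)
        have h5 := hD w h4
        have h6 : w.length = n + 2 * i := (mem_SW.1 hw.1).1
        rw [h6] at h5
        exact h5
    refine h3.trans (h1.trans (le_of_eq ?_))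
    rw [hE]
    ring
  have e : ∑ i ∈ range (r + 1), (-1 : ℝ) ^ i * (r.choose i : ℝ) *
        ((∑ w ∈ SW (n + 2 * i), F w) / μ ^ (2 * i)) =
      ∑ i ∈ range (r + 1), (-1 : ℝ) ^ i * (r.choose i : ℝ) *
        ((∑ w ∈ GG L (μ ^ 2) ε n a l i, F w) / (μ ^ 2) ^ i) +
      ∑ i ∈ range (r + 1), (-1 : ℝ) ^ i * (r.choose i : ℝ) *
        ((∑ w ∈ SW (n + 2 * i), F w) / μ ^ (2 * i) -
          (∑ w ∈ GG L (μ ^ 2) ε n a l i, F w) / (μ ^ 2) ^ i) := by
    rw [← sum_add_distrib]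
    exact sum_congr rfl (fun i _ => by ring)
  rw [e]
  refine (abs_add_le _ _).trans ?_
  have h3 : |∑ i ∈ range (r + 1), (-1 : ℝ) ^ i * (r.choose i : ℝ) *
        ((∑ w ∈ SW (n + 2 * i), F w) / μ ^ (2 * i) -
          (∑ w ∈ GG L (μ ^ 2) ε n a l i, F w) / (μ ^ 2) ^ i)| ≤ 2 ^ r * (C₂ * E) := by
    refine (abs_sum_le_sum_abs _ _).trans ?_
    have h4 : ∑ i ∈ range (r + 1), (r.choose i : ℝ) = 2 ^ r := by
      exact_mod_cast Nat.sum_range_choose r
    rw [← h4, sum_mul]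
    refine sum_le_sum (fun i hi => ?_)
    rw [abs_mul, abs_mul, abs_pow, abs_neg, abs_one, one_pow, one_mul, Nat.abs_cast]
    exact mul_le_mul_of_nonneg_left (hbad i hi) (Nat.cast_nonneg _)
  have hS : 0 ≤ ∑ w ∈ SW n, F w := sum_nonneg (fun w _ => (hF w).1)
  have hp : 0 ≤ (2 : ℝ) ^ r * C₂ := by positivity
  calc _ ≤ C₁ * ε ^ r * (∑ w ∈ SW n, F w) + 2 ^ r * (C₂ * E) := add_le_add hg' h3
    _ ≤ C₁ * ε ^ r * (∑ w ∈ SW n, F w) + 2 ^ r * (C₂ * E) +
        (2 ^ r * C₂ * (ε ^ r * (∑ w ∈ SW n, F w)) + C₁ * E) := by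
        have : 0 ≤ 2 ^ r * C₂ * (ε ^ r * (∑ w ∈ SW n, F w)) + C₁ * E := by positivity
        linarith
    _ = _ := by ring

end

end Pool.Agent.N929.EZ
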