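import Pool.Agent.N929.EZ.AO
import Pool.Agent.N929.EZ.Stm2

/-!
# Regularity to all orders, for functionals that depend on the occupied slots
-/

set_option autoImplicit false
set_option linter.unusedVariables false

namespace Pool.Agent.N929.EZ

open Pool.Agent.H976R2 Pool.Agent.H976R2.Dir Finset
open Pool.Agent.N929.EX Pool.Agent.N929.EY
open scoped Classical

noncomputable section

/-- the number of occupied slots of the filled walk with `n` steps -/
def kk (n : ℕ) (w : List Dir) : ℕ := (n - w.length) / 2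

/-- the stripped walks of the balanced classes -/
def XX (L : Finset (ℤ × ℤ)) (m ε : ℝ) (n a l : ℕ) : Finset (List Dir) :=
  ((range (n + 1)).biUnion (fun N => SW N)).filter (fun w => Em L a l w ∧
    w.length + 2 * kk n w = n ∧ Gk m ε (Sl L a l w).card (kk n w))

theorem mem_XX {L : Finset (ℤ × ℤ)} {m ε : ℝ} {n a l : ℕ} {w : List Dir} :
    w ∈ XX L m ε n a l ↔ Em L a l w ∧ w.length + 2 * kk n w = n ∧
      Gk m ε (Sl L a l w).card (kk n w) := by
  unfold XX
  rw [mem_filter, mem_biUnion]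
  constructor
  · exact fun h => h.2
  · intro h
    exact ⟨⟨w.length, by rw [mem_range]; omega, h.1.2.1⟩, h⟩

/-- the balanced walks are the filled ones -/
theorem gg_sum {L : Finset (ℤ × ℤ)} {st : List Dir → List Dir}
    {fl : List Dir → Finset (ℤ × ℤ) → List Dir} {m ε : ℝ} {n a l i : ℕ} (h : Fill L a l st fl)
    (hal : a + l ≤ n) (F : List Dir → ℝ) :
    ∑ w ∈ GG L m ε n a l i, F w =
      ∑ w ∈ XX L m ε n a l, ∑ U ∈ (Sl L a l w).powersetCard (kk n w + i), F (fl w U) := by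
  rw [sum_sigma']
  symm
  refine sum_nbij' (fun x => fl x.1 x.2) (fun w => ⟨st w, Oc L a l w⟩) ?_ ?_ ?_ ?_ ?_
  · rintro ⟨w, U⟩ hx
    rw [mem_sigma, mem_XX, mem_powersetCard] at hx
    obtain ⟨⟨h1, h2, h3⟩, h4, h5⟩ := hx
    simp only at h1 h2 h3 h4 h5 ⊢
    have e1 := h.fl_len w U h1 h4
    have e2 := h.fl_sw w U h1 h4
    have e3 := h.fl_sl w U h1 h4
    have e4 := h.fl_oc w U h1 h4
    have e5 : w.length + 2 * U.card = n + 2 * i := by omega
    rw [e5] at e1 e2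
    unfold Sl at e3
    unfold Oc at e4
    rw [e1] at e3 e4
    unfold GG
    rw [mem_filter, e3, e4]
    refine ⟨e2, ?_, ?_⟩
    · omega
    · rw [h5, Nat.add_sub_cancel]
      exact h3
  · intro w hw
    unfold GG at hw
    rw [mem_filter] at hw
    obtain ⟨h1, h2, h3⟩ := hw
    have hlen : w.length = n + 2 * i := (mem_SW.1 h1).1
    have h1' : w ∈ SW w.length := by rw [hlen]; exact h1
    have hle : a + l ≤ w.length := by omega
    rw [mem_sigma, mem_XX, mem_powersetCard]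
    simp only
    have g1 := h.st_em w hle h1'
    have g2 := h.st_len w hle h1'
    have g3 := h.st_sl w hle h1'
    have e3 : Sl L a l w = DD L 1 (a, n + 2 * i - l) w := by unfold Sl; rw [hlen]
    have e4 : Oc L a l w = OO L 1 (a, n + 2 * i - l) w := by unfold Oc; rw [hlen]
    rw [← e3, ← e4] at h3
    rw [← e4] at h2
    have e5 : kk n (st w) = (Oc L a l w).card - i := by unfold kk; omega
    rw [g3, e5]
    refine ⟨⟨g1, by omega, h3⟩, ?_, by omega⟩
    unfold Sl Oc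
    exact OO_sub'
  · rintro ⟨w, U⟩ hx
    rw [mem_sigma, mem_XX, mem_powersetCard] at hx
    obtain ⟨⟨h1, h2, h3⟩, h4, h5⟩ := hx
    simp only at h1 h2 h3 h4 h5 ⊢
    rw [h.st_fl w U h1 h4, h.fl_oc w U h1 h4]
  · intro w hw
    unfold GG at hw
    rw [mem_filter] at hw
    have hlen : w.length = n + 2 * i := (mem_SW.1 hw.1).1
    have h1' : w ∈ SW w.length := by rw [hlen]; exact hw.1
    exact h.fl_st w (by omega) h1'
  · rintro ⟨w, U⟩ hx
    rfl

/-- the sum over the sets with a given number of elements -/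
theorem rp_sum {E : Finset (ℤ × ℤ)} {Φ : Finset (ℤ × ℤ) → ℝ} {v : Finset (ℤ × ℤ) → ℝ}
    (h : ∀ U ⊆ E, Φ U = ∑ T ∈ E.powerset, if Disjoint T U then v T else 0) (k : ℕ) :
    ∑ U ∈ E.powersetCard k, Φ U = ∑ T ∈ E.powerset, v T * ((E.card - T.card).choose k : ℝ) := by
  have h1 : ∑ U ∈ E.powersetCard k, Φ U =
      ∑ U ∈ E.powersetCard k, ∑ T ∈ E.powerset, if Disjoint T U then v T else 0 :=
    sum_congr rfl (fun U hU => h U (mem_powersetCard.1 hU).1)
  rw [h1, sum_comm]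
  refine sum_congr rfl (fun T hT => ?_)
  rw [mem_powerset] at hT
  rw [← sum_filter, sum_const, nsmul_eq_mul, mul_comm]
  congr 2
  have h2 : (E.powersetCard k).filter (fun U => Disjoint T U) = (E \ T).powersetCard k := by
    ext U
    rw [mem_filter, mem_powersetCard, mem_powersetCard]
    constructor
    · rintro ⟨⟨h3, h4⟩, h5⟩
      refine ⟨fun x hx => mem_sdiff.2 ⟨h3 hx, fun hx' => ?_⟩, h4⟩
      exact (disjoint_left.1 h5 hx') hx
    · rintro ⟨h3, h4⟩
      refine ⟨⟨fun x hx => (mem_sdiff.1 (h3 hx)).1, h4⟩, ?_⟩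
      rw [disjoint_left]
      intro x hx hx'
      exact (mem_sdiff.1 (h3 hx')).2 hx
  rw [h2, card_powersetCard, card_sdiff_of_subset hT]

/-- the balanced part -/
theorem goodF (hdfj : S_DFJ) (r : ℕ) (m : ℝ) (hm : 1 ≤ m) : ∃ C : ℝ, 0 < C ∧
    ∀ (n a l : ℕ) (ε : ℝ), a + l ≤ n → 0 < ε → ε ≤ 1 →
      ∀ (L : Finset (ℤ × ℤ)) (st : List Dir → List Dir)
        (fl : List Dir → Finset (ℤ × ℤ) → List Dir), Fill L a l st fl →
        ∀ (F M : List Dir → ℝ), (∀ w, 0 ≤ M w) →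
        (∀ w, Em L a l w → Rp (Sl L a l w) (fun U => F (fl w U)) (M w)) →
        |∑ i ∈ range (r + 1), (-1 : ℝ) ^ i * (r.choose i : ℝ) *
          ((∑ w ∈ GG L m ε n a l i, F w) / m ^ i)| ≤ C * ε ^ r * (∑ w ∈ SW n, M (st w)) := by
  obtain ⟨C, hC, hd⟩ := hdfj r m hm
  refine ⟨C, hC, fun n a l ε hal hε hε1 L st fl hfl F M hM hF => ?_⟩
  have e1 : ∀ w ∈ XX L m ε n a l, |∑ i ∈ range (r + 1), (-1 : ℝ) ^ i * (r.choose i : ℝ) *
      ((∑ U ∈ (Sl L a l w).powersetCard (kk n w + i), F (fl w U)) / m ^ i)| ≤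
      C * ε ^ r * ∑ U ∈ (Sl L a l w).powersetCard (kk n w + 0), M w := by
    intro w hw
    obtain ⟨h1, h2, h3, h4, h5⟩ := mem_XX.1 hw
    obtain ⟨v, hv, hv'⟩ := hF w h1
    have g1 : ∑ i ∈ range (r + 1), (-1 : ℝ) ^ i * (r.choose i : ℝ) *
        ((∑ U ∈ (Sl L a l w).powersetCard (kk n w + i), F (fl w U)) / m ^ i) =
        ∑ T ∈ (Sl L a l w).powerset, v T * ∑ i ∈ range (r + 1), (-1 : ℝ) ^ i *
          (r.choose i : ℝ) * ((((Sl L a l w).card - T.card).choose (kk n w + i) : ℝ) / m ^ i) := by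
      rw [sum_congr rfl (fun i _ => by rw [rp_sum hv' (kk n w + i)])]
      simp_rw [Finset.sum_div, mul_sum]
      rw [sum_comm]
      refine sum_congr rfl (fun x _ => sum_congr rfl (fun i _ => ?_))
      ring
    rw [g1, Nat.add_zero, sum_const, card_powersetCard, nsmul_eq_mul]
    refine (abs_sum_le_sum_abs _ _).trans ?_
    calc ∑ T ∈ (Sl L a l w).powerset, |v T * ∑ i ∈ range (r + 1), (-1 : ℝ) ^ i *
          (r.choose i : ℝ) * ((((Sl L a l w).card - T.card).choose (kk n w + i) : ℝ) / m ^ i)|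
        ≤ ∑ T ∈ (Sl L a l w).powerset, |v T| * (C * ε ^ r *
            ((Sl L a l w).card.choose (kk n w) : ℝ)) := by
          refine sum_le_sum (fun T hT => ?_)
          rw [abs_mul]
          exact mul_le_mul_of_nonneg_left (hd _ _ _ ε hε hε1 h3
            (card_le_card (mem_powerset.1 hT)) h4 h5) (abs_nonneg _)
      _ = (∑ T ∈ (Sl L a l w).powerset, |v T|) * (C * ε ^ r *
            ((Sl L a l w).card.choose (kk n w) : ℝ)) := by rw [sum_mul]
      _ ≤ M w * (C * ε ^ r * ((Sl L a l w).card.choose (kk n w) : ℝ)) :=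
          mul_le_mul_of_nonneg_right hv (by positivity)
      _ = _ := by ring_nf
  have e2 : ∑ i ∈ range (r + 1), (-1 : ℝ) ^ i * (r.choose i : ℝ) *
      ((∑ w ∈ GG L m ε n a l i, F w) / m ^ i) =
      ∑ w ∈ XX L m ε n a l, ∑ i ∈ range (r + 1), (-1 : ℝ) ^ i * (r.choose i : ℝ) *
        ((∑ U ∈ (Sl L a l w).powersetCard (kk n w + i), F (fl w U)) / m ^ i) := by
    rw [sum_comm]
    refine sum_congr rfl (fun i _ => ?_)
    rw [gg_sum hfl hal, Finset.sum_div, mul_sum]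
  rw [e2]
  refine (abs_sum_le_sum_abs _ _).trans ((sum_le_sum e1).trans ?_)
  rw [← mul_sum]
  refine mul_le_mul_of_nonneg_left ?_ (by positivity)
  have e3 : ∑ w ∈ XX L m ε n a l, ∑ U ∈ (Sl L a l w).powersetCard (kk n w + 0), M w =
      ∑ w ∈ GG L m ε n a l 0, M (st w) := by
    rw [gg_sum hfl hal (fun w => M (st w))]
    refine sum_congr rfl (fun w hw => sum_congr rfl (fun U hU => ?_))
    rw [hfl.st_fl w U (mem_XX.1 hw).1 (mem_powersetCard.1 hU).1]
  rw [e3]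
  refine sum_le_sum_of_subset_of_nonneg ?_ (fun w _ _ => hM _)
  unfold GG
  rw [Nat.mul_zero, Nat.add_zero]
  exact filter_subset _ _

theorem aof (hdfj : S_DFJ) (hmv : S_MV) (hrat : S_RAT) (hfam : S_FAM3)
    (hup : S_UP) : S_AOF := by
  obtain ⟨μ, K, hμ, hK, hlow, hupp⟩ := hup
  refine ⟨μ, K, hμ, hK, hlow, hupp, fun r => ?_⟩
  obtain ⟨c, C₀, hc, hC₀, hf⟩ := hfam
  have hμ1 : 1 ≤ μ := by linarith
  obtain ⟨C₁, hC₁, hg⟩ := goodF hdfj r (μ ^ 2) (one_le_pow₀ hμ1)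
  obtain ⟨A, C₂, hA, hC₂, hu⟩ := unb hmv hrat hc hC₀ hμ1 hK hlow hupp r
  refine ⟨A, C₁ + 2 ^ r * C₂, hA, by positivity, ?_⟩
  intro n a l ε hn hal hε hε1 hAn D
  obtain ⟨L, hL, hLD, hfa⟩ := hf n hn D
  refine ⟨L, hL, hLD, fun st fl hfl F M B hB hM hFB hD hI => ?_⟩
  have hμ0 : 0 < μ := by linarith
  have hg' := hg n a l ε (by omega) hε hε1 L st fl hfl F M hM hI
  obtain ⟨E, hE⟩ : ∃ E : ℝ, E = Real.exp (-(ε ^ 2 * n / A)) * ((SW n).card : ℝ) := ⟨_, rfl⟩
  rw [← hE]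
  have hE0 : 0 ≤ E := by rw [hE]; positivity
  -- the remaining walks
  have hbad : ∀ i ∈ range (r + 1), |(∑ w ∈ SW (n + 2 * i), F w) / μ ^ (2 * i) -
      (∑ w ∈ GG L (μ ^ 2) ε n a l i, F w) / (μ ^ 2) ^ i| ≤ B * (C₂ * E) := by
    intro i hi'
    have hi := mem_range.1 hi'
    have h1 := hu n a l i ε hn hal (by omega) hε hε1 hAn D L hL hfa
    rw [← pow_mul, ← sub_div]
    have h2 : (∑ w ∈ SW (n + 2 * i), F w) - (∑ w ∈ GG L (μ ^ 2) ε n a l i, F w) =
        ∑ w ∈ (SW (n + 2 * i)).filter (fun w => ¬ Bal (μ ^ 2) ε i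
          (DD L 1 (a, n + 2 * i - l) w).card (OO L 1 (a, n + 2 * i - l) w).card), F w := by
      rw [GG, sub_eq_iff_eq_add]
      have := sum_filter_add_sum_filter_not (SW (n + 2 * i)) (fun w => Bal (μ ^ 2) ε i
          (DD L 1 (a, n + 2 * i - l) w).card (OO L 1 (a, n + 2 * i - l) w).card) F
      linarith
    rw [h2, abs_div, abs_of_pos (show 0 < μ ^ (2 * i) by positivity),
      div_le_iff₀ (by positivity)]
    refine (abs_sum_le_sum_abs _ _).trans ?_
    have h3 : ∑ w ∈ (SW (n + 2 * i)).filter (fun w => ¬ Bal (μ ^ 2) ε i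
          (DD L 1 (a, n + 2 * i - l) w).card (OO L 1 (a, n + 2 * i - l) w).card), |F w| ≤
        B * (((SW (n + 2 * i)).filter (fun w => (∀ t, t ≤ n + 2 * i → Lip.PP w t ∈ D) ∧
        ¬ Bal (μ ^ 2) ε i (DD L 1 (a, n + 2 * i - l) w).card
          (OO L 1 (a, n + 2 * i - l) w).card)).card : ℝ) := by
      have e1 : (((SW (n + 2 * i)).filter (fun w => (∀ t, t ≤ n + 2 * i → Lip.PP w t ∈ D) ∧
        ¬ Bal (μ ^ 2) ε i (DD L 1 (a, n + 2 * i - l) w).card
          (OO L 1 (a, n + 2 * i - l) w).card)).card : ℝ) =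
          ∑ w ∈ (SW (n + 2 * i)).filter (fun w => ¬ Bal (μ ^ 2) ε i
          (DD L 1 (a, n + 2 * i - l) w).card (OO L 1 (a, n + 2 * i - l) w).card),
            (if (∀ t, t ≤ n + 2 * i → Lip.PP w t ∈ D) then (1 : ℝ) else 0) := by
        rw [sum_ite, sum_const, sum_const_zero, add_zero, nsmul_eq_mul, mul_one, filter_filter]
        congr 2
        ext w
        simp only [mem_filter]
        tauto
      rw [e1, mul_sum]
      refine sum_le_sum (fun w hw => ?_)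
      rw [mem_filter] at hw
      split_ifs with h
      · rw [mul_one]
        exact hFB i hi' w hw.1
      · rw [mul_zero]
        by_contra hcon
        apply h
        have h4 : F w ≠ 0 := fun h5 => hcon (le_of_eq (by rw [h5, abs_zero]))
        have h5 := hD w h4
        have h6 : w.length = n + 2 * i := (mem_SW.1 hw.1).1
        rw [h6] at h5
        exact h5
    refine h3.trans ((mul_le_mul_of_nonneg_left h1 hB).trans (le_of_eq ?_))
    rw [hE]
    ring
  have e : ∑ i ∈ range (r + 1), (-1 : ℝ) ^ i * (r.choose i : ℝ) *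
        ((∑ w ∈ SW (n + 2 * i), F w) / μ ^ (2 * i)) =
      ∑ i ∈ range (r + 1), (-1 : ℝ) ^ i * (r.choose i : ℝ) *
        ((∑ w ∈ GG L (μ ^ 2) ε n a l i, F w) / (μ ^ 2) ^ i) +
      ∑ i ∈ range (r + 1), (-1 : ℝ) ^ i * (r.choose i : ℝ) *
        ((∑ w ∈ SW (n + 2 * i), F w) / μ ^ (2 * i) -
          (∑ w ∈ GG L (μ ^ 2) ε n a l i, F w) / (μ ^ 2) ^ i) := by
    rw [← sum_add_distrib]
    exact sum_congr rfl (fun i _ => by ring)
  rw [e]
  refine (abs_add_le _ _).trans ?_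
  have h3 : |∑ i ∈ range (r + 1), (-1 : ℝ) ^ i * (r.choose i : ℝ) *
        ((∑ w ∈ SW (n + 2 * i), F w) / μ ^ (2 * i) -
          (∑ w ∈ GG L (μ ^ 2) ε n a l i, F w) / (μ ^ 2) ^ i)| ≤ 2 ^ r * (B * (C₂ * E)) := by
    refine (abs_sum_le_sum_abs _ _).trans ?_
    have h4 : ∑ i ∈ range (r + 1), (r.choose i : ℝ) = 2 ^ r := by
      exact_mod_cast Nat.sum_range_choose r
    rw [← h4, sum_mul]
    refine sum_le_sum (fun i hi => ?_)
    rw [abs_mul, abs_mul, abs_pow, abs_neg, abs_one, one_pow, one_mul, Nat.abs_cast]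
    exact mul_le_mul_of_nonneg_left (hbad i hi) (Nat.cast_nonneg _)
  have hS : 0 ≤ ∑ w ∈ SW n, M (st w) := sum_nonneg (fun w _ => hM _)
  have hp : 0 ≤ (2 : ℝ) ^ r * C₂ := by positivity
  calc _ ≤ C₁ * ε ^ r * (∑ w ∈ SW n, M (st w)) + 2 ^ r * (B * (C₂ * E)) := add_le_add hg' h3
    _ ≤ C₁ * ε ^ r * (∑ w ∈ SW n, M (st w)) + 2 ^ r * (B * (C₂ * E)) +
        (2 ^ r * C₂ * (ε ^ r * (∑ w ∈ SW n, M (st w))) + C₁ * (B * E)) := by
        have : 0 ≤ 2 ^ r * C₂ * (ε ^ r * (∑ w ∈ SW n, M (st w))) + C₁ * (B * E) := by positivity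
        linarith
    _ = _ := by ring

end

end Pool.Agent.N929.EZ
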