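import Pool.Agent.N929.EZ.AO
import Pool.Agent.N929.EX.All
import Pool.Agent.N929.EY.All
import Pool.Agent.N87.EZ.WT3
import Pool.Agent.N9.EZ.CL1
import Pool.Agent.N833.EZ.MV
import Pool.Agent.N278.EZ.Rat
import Pool.Agent.N704.EZ.Dif
import Pool.Agent.N322.EZ.SEL3
import Pool.Agent.N478.EZ.Fam3

/-!
# Regularity to all orders: the unconditional theorem
-/

set_option autoImplicit false
set_option linter.unusedVariables false

namespace Pool.Agent.N929.EZ

theorem s_wt3 : S_WT3 := Pool.Agent.N87.EZ.wt3 Pool.Agent.N400.EX.tog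

theorem s_cl1 : S_CL1 := Pool.Agent.N9.EZ.cl1 s_wt3

theorem s_mv : S_MV := Pool.Agent.N833.EZ.mv s_cl1

theorem s_fam3 : S_FAM3 :=
  Pool.Agent.N478.EZ.fam3 Pool.Agent.N322.EZ.sel3
    (Pool.Agent.N27.EX.off Pool.Agent.N400.EX.tog)
    Pool.Agent.N457.EX.plq Pool.Agent.N348.EX.up
    (Pool.Agent.N348.EX.few_of_up Pool.Agent.N348.EX.up)

theorem s_ao : S_AO :=
  ao s_cl1 Pool.Agent.N704.EZ.dif s_mv Pool.Agent.N278.EZ.rat s_fam3 Pool.Agent.N348.EX.up

end Pool.Agent.N929.EZ
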