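import Pool.Agent.N929.EZ.Stm2

/-!
# The functions of a set of slots with a representation
-/

set_option autoImplicit false
set_option linter.unusedVariables false

namespace Pool.Agent.N929.EZ

open Finset
open scoped Classical

noncomputable section

variable {E : Finset (ℤ × ℤ)}

theorem Rp.mono {Φ : Finset (ℤ × ℤ) → ℝ} {M M' : ℝ} (h : Rp E Φ M) (hM : M ≤ M') : Rp E Φ M' := by
  obtain ⟨v, h1, h2⟩ := h
  exact ⟨v, h1.trans hM, h2⟩

theorem Rp.congr {Φ Ψ : Finset (ℤ × ℤ) → ℝ} {M : ℝ} (h : Rp E Φ M) (h' : ∀ U ⊆ E, Ψ U = Φ U) :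
    Rp E Ψ M := by
  obtain ⟨v, h1, h2⟩ := h
  exact ⟨v, h1, fun U hU => by rw [h' U hU, h2 U hU]⟩

theorem Rp.nonneg {Φ : Finset (ℤ × ℤ) → ℝ} {M : ℝ} (h : Rp E Φ M) : 0 ≤ M := by
  obtain ⟨v, h1, h2⟩ := h
  exact (sum_nonneg (fun _ _ => abs_nonneg _)).trans h1

/-- the indicator function of `U ∩ T = ∅` -/
theorem Rp.ind {T : Finset (ℤ × ℤ)} (hT : T ⊆ E) :
    Rp E (fun U => if Disjoint T U then 1 else 0) 1 := by
  refine ⟨fun T' => if T' = T then 1 else 0, ?_, fun U hU => ?_⟩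
  · have h1 : ∀ x ∈ E.powerset, |(if x = T then (1 : ℝ) else 0)| = if x = T then 1 else 0 := by
      intro x _
      split_ifs <;> simp
    rw [sum_congr rfl h1, sum_ite_eq' E.powerset T (fun _ => (1 : ℝ)),
      if_pos (mem_powerset.2 hT)]
  · have h1 : ∀ x ∈ E.powerset, (if Disjoint x U then (if x = T then (1 : ℝ) else 0) else 0) =
        if x = T then (if Disjoint T U then 1 else 0) else 0 := by
      intro x _
      by_cases h : x = T
      · subst h
        simp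
      · simp [h]
    rw [sum_congr rfl h1, sum_ite_eq' E.powerset T, if_pos (mem_powerset.2 hT)]

theorem Rp.smul {Φ : Finset (ℤ × ℤ) → ℝ} {M : ℝ} (h : Rp E Φ M) (c : ℝ) :
    Rp E (fun U => c * Φ U) (|c| * M) := by
  obtain ⟨v, h1, h2⟩ := h
  refine ⟨fun T => c * v T, ?_, fun U hU => ?_⟩
  · calc ∑ T ∈ E.powerset, |c * v T| = |c| * ∑ T ∈ E.powerset, |v T| := by
          rw [mul_sum]
          exact sum_congr rfl (fun _ _ => abs_mul _ _)
      _ ≤ |c| * M := mul_le_mul_of_nonneg_left h1 (abs_nonneg _)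
  · show c * Φ U = _
    rw [h2 U hU, mul_sum]
    refine sum_congr rfl (fun T _ => ?_)
    split_ifs
    · rfl
    · rw [mul_zero]

theorem Rp.add {Φ Ψ : Finset (ℤ × ℤ) → ℝ} {M N : ℝ} (h : Rp E Φ M) (h' : Rp E Ψ N) :
    Rp E (fun U => Φ U + Ψ U) (M + N) := by
  obtain ⟨v, h1, h2⟩ := h
  obtain ⟨v', h1', h2'⟩ := h'
  refine ⟨fun T => v T + v' T, ?_, fun U hU => ?_⟩
  · refine le_trans ?_ (add_le_add h1 h1')
    rw [← sum_add_distrib]
    exact sum_le_sum (fun _ _ => abs_add_le _ _)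
  · show Φ U + Ψ U = _
    rw [h2 U hU, h2' U hU, ← sum_add_distrib]
    refine sum_congr rfl (fun T _ => ?_)
    split_ifs
    · rfl
    · rw [add_zero]

/-- constants -/
theorem Rp.const (c : ℝ) : Rp E (fun _ => c) |c| := by
  have h := (Rp.ind (E := E) (T := ∅) (empty_subset _)).smul c
  rw [mul_one] at h
  refine h.congr (fun U _ => ?_)
  simp

theorem Rp.zero : Rp E (fun _ => 0) 0 := by
  simpa using Rp.const (E := E) 0

theorem Rp.sum {ι : Type*} (s : Finset ι) {Φ : ι → Finset (ℤ × ℤ) → ℝ} {M : ι → ℝ}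
    (h : ∀ i ∈ s, Rp E (Φ i) (M i)) : Rp E (fun U => ∑ i ∈ s, Φ i U) (∑ i ∈ s, M i) := by
  induction s using Finset.induction_on with
  | empty => simpa using Rp.zero (E := E)
  | @insert i s hi ih =>
    rw [sum_insert hi]
    refine ((h i (mem_insert_self _ _)).add (ih (fun j hj => h j (mem_insert_of_mem hj)))).congr
      (fun U _ => ?_)
    rw [sum_insert hi]

theorem Rp.mul {Φ Ψ : Finset (ℤ × ℤ) → ℝ} {M N : ℝ} (h : Rp E Φ M) (h' : Rp E Ψ N) :
    Rp E (fun U => Φ U * Ψ U) (M * N) := by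
  obtain ⟨v, h1, h2⟩ := h
  obtain ⟨v', h1', h2'⟩ := h'
  have hN : 0 ≤ N := (sum_nonneg (fun _ _ => abs_nonneg _)).trans h1'
  -- sum of multiples of indicator functions
  have h3 : ∀ x ∈ E.powerset ×ˢ E.powerset, Rp E (fun U => v x.1 * v' x.2 *
      (if Disjoint (x.1 ∪ x.2) U then 1 else 0)) (|v x.1| * |v' x.2|) := by
    intro x hx
    rw [mem_product, mem_powerset, mem_powerset] at hx
    have := (Rp.ind (E := E) (union_subset hx.1 hx.2)).smul (v x.1 * v' x.2)
    rw [mul_one, abs_mul] at this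
    exact this
  have h4 := Rp.sum _ h3
  refine (h4.mono ?_).congr (fun U hU => ?_)
  · rw [sum_product (f := fun x : Finset (ℤ × ℤ) × Finset (ℤ × ℤ) => |v x.1| * |v' x.2|)]
    simp only
    rw [← sum_mul_sum]
    exact mul_le_mul h1 h1' (sum_nonneg (fun _ _ => abs_nonneg _))
      ((sum_nonneg (fun _ _ => abs_nonneg _)).trans h1)
  · rw [h2 U hU, h2' U hU, sum_mul_sum, ← sum_product']
    refine sum_congr rfl (fun x _ => ?_)
    by_cases a1 : Disjoint x.1 U <;> by_cases a2 : Disjoint x.2 U <;>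
      simp [disjoint_union_left, a1, a2]

theorem Rp.pow {Φ : Finset (ℤ × ℤ) → ℝ} {M : ℝ} (h : Rp E Φ M) (k : ℕ) :
    Rp E (fun U => Φ U ^ k) (M ^ k) := by
  induction k with
  | zero => simpa using Rp.const (E := E) 1
  | succ k ih =>
    refine ((ih.mul h).mono (le_of_eq (pow_succ M k).symm)).congr (fun U _ => ?_)
    rw [pow_succ]

/-- the indicator function of `q ∈ U` -/
theorem Rp.mem {q : ℤ × ℤ} (hq : q ∈ E) : Rp E (fun U => if q ∈ U then 1 else 0) 2 := by
  have h := (Rp.const (E := E) 1).add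
    ((Rp.ind (E := E) (T := {q}) (singleton_subset_iff.2 hq)).smul (-1))
  refine (h.mono (by norm_num)).congr (fun U _ => ?_)
  by_cases h : q ∈ U <;> simp [disjoint_singleton_left, h]

/-- sums over `U` -/
theorem Rp.lin (δ : ℤ × ℤ → ℝ) : Rp E (fun U => ∑ q ∈ U, δ q) (2 * ∑ q ∈ E, |δ q|) := by
  have h := Rp.sum E (fun q hq => (Rp.mem (E := E) hq).smul (δ q))
  refine (h.mono (le_of_eq ?_)).congr (fun U hU => ?_)
  · rw [mul_sum]
    exact sum_congr rfl (fun _ _ => mul_comm _ _)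
  · simp only [mul_ite, mul_one, mul_zero]
    rw [← sum_filter]
    refine sum_congr ?_ (fun _ _ => rfl)
    ext x
    rw [mem_filter]
    exact ⟨fun hx => ⟨hU hx, hx⟩, fun hx => hx.2⟩

end

end Pool.Agent.N929.EZ
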