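import Pool.Agent.N929.EZ.All
import Pool.Agent.N929.EZ.AOF
import Pool.Agent.N929.EZ.Gen
import Pool.Agent.N717.EZ.Bij
import Pool.Agent.N861.EZ.Dfj
import Pool.Agent.N427.EZ.Fin
import Pool.Agent.N507.EZ.Log

/-!
# Regularity to all orders of functionals: the unconditional theorem
-/

set_option autoImplicit false
set_option linter.unusedVariables false

namespace Pool.Agent.N929.EZ

theorem s_bij : S_BIJ := Pool.Agent.N717.EZ.bij s_wt3

theorem s_aof : S_AOF :=
  aof Pool.Agent.N861.EZ.dfj s_mv Pool.Agent.N278.EZ.rat s_fam3 Pool.Agent.N348.EX.up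

theorem s_fin : S_FIN := Pool.Agent.N427.EZ.fin Pool.Agent.N507.EZ.log_diff

theorem s_gen : S_GEN := gen s_aof s_bij s_fin

end Pool.Agent.N929.EZ
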