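import Pool.Agent.N929.EZ.Poly3
import Pool.Agent.N342.EZ.AR
import Pool.Agent.N327.EZ.BPI
import Pool.Agent.H739K.All2

/-!
# The area of polygons: regularity to all orders
-/

set_option autoImplicit false
set_option linter.unusedVariables false

namespace Pool.Agent.N929.EZ

open Pool.Agent.H976R2 Pool.Agent.H976R2.Dir Finset Filter Topology
open Pool.Agent.N929.EX Pool.Agent.N929.EY
open Pool.Agent.H739K (KP ar MA)
open scoped Classical

noncomputable section

/-- there are at most as many slots as times -/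
theorem sl_card {L : Finset (ℤ × ℤ)} (hL : CF L) {a l : ℕ} (w : List Dir) :
    (Sl L a l w).card ≤ w.length + 1 := by
  have h : ∀ q ∈ Sl L a l w, ∃ k, k ≤ w.length ∧ Cn q (Lip.PP w k) := by
    intro q hq
    unfold Sl EX.DD at hq
    obtain ⟨-, k, hk | hk⟩ := mem_filter.1 hq
    · exact ⟨k, by have := hk.1.1; omega, (hk.1.2 k (by have := hk.1.1; omega)).2 (by omega)⟩
    · exact ⟨k, by have := hk.1.1; omega, (hk.1.2 k (by have := hk.1.1; omega)).2 (by omega)⟩
  choose! f hf1 hf2 using h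
  rw [show w.length + 1 = (range (w.length + 1)).card by simp]
  refine card_le_card_of_injOn f (fun q hq => ?_) (fun q hq q' hq' he => ?_)
  · rw [mem_coe, mem_range]
    have := hf1 q hq
    omega
  · by_contra hne
    have h1 : q ∈ L := by
      rw [mem_coe] at hq
      unfold Sl EX.DD at hq
      exact (mem_filter.1 hq).1
    have h2 : q' ∈ L := by
      rw [mem_coe] at hq'
      unfold Sl EX.DD at hq'
      exact (mem_filter.1 hq').1
    refine hL q h1 q' h2 hne (Lip.PP w (f q)) ⟨hf2 q hq, ?_⟩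
    rw [he]
    exact hf2 q' hq'

/-- the sign of a slot -/
def sg (w : List Dir) (q : ℤ × ℤ) : ℝ :=
  if Pool.Agent.H924P.Encl (w.length + 1) (Pool.Agent.H739K.lp (w.length + 1) w) q then -1 else 1

theorem sg_abs (w : List Dir) (q : ℤ × ℤ) : |sg w q| = 1 := by
  unfold sg
  split_ifs <;> simp

theorem ar_fl {L : Finset (ℤ × ℤ)} (hL : CF L) {st : List Dir → List Dir}
    {fl : List Dir → Finset (ℤ × ℤ) → List Dir} (hfl : Fill L 0 0 st fl) {w : List Dir}
    (hw : Em L 0 0 w) (h3 : 3 ≤ w.length) (hs : sq w = 1) {U : Finset (ℤ × ℤ)}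
    (hU : U ⊆ Sl L 0 0 w) : (ar (fl w U) : ℝ) = (ar w : ℝ) + ∑ q ∈ U, sg w q := by
  have := Pool.Agent.N342.EZ.ar_fill Pool.Agent.N327.EZ.bpi L hL 0 0 st fl hfl w hw h3 hs U hU
  rw [this]
  congr 1

/-- the functional -/
def Gk1 (k : ℕ) (w : List Dir) : ℝ := if 3 ≤ w.length then (ar w : ℝ) ^ k else 0

theorem Gk1_nonneg (k : ℕ) (w : List Dir) : 0 ≤ Gk1 k w := by
  unfold Gk1
  split_ifs
  · positivity
  · exact le_rfl

theorem KP_mem {n : ℕ} {w : List Dir} (hw : w ∈ KP n) :
    w ∈ SW n ∧ sq w = 1 ∧ w.length = n := by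
  unfold KP at hw
  rw [mem_filter] at hw
  exact ⟨hw.1, hw.2, (mem_SW.1 hw.1).1⟩

/-- the mean area from below -/
theorem area_low {n : ℕ} (hn : 3 ≤ n) (ho : n % 2 = 1) :
    ((n : ℝ) + 1) / 4 * ((KP n).card : ℝ) ≤ ∑ w ∈ KP n, (ar w : ℝ) := by
  obtain ⟨N, hN⟩ : ∃ N, n = 2 * N - 1 := ⟨(n + 1) / 2, by omega⟩
  have hN2 : 2 ≤ N := by omega
  have h1 := Pool.Agent.H739K.f2a N hN2
  obtain ⟨c1, c2, -⟩ := Pool.Agent.H739K.CONV_proof N hN2
  have h2 : MA N = (∑ w ∈ KP n, (ar w : ℝ)) / ((KP n).card : ℝ) := by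
    unfold MA Pool.Agent.H739K.me
    rw [c1, c2, hN]
    congr 1
    refine sum_congr rfl (fun w hw => ?_)
    have hl := (KP_mem hw).2.2
    unfold ar
    rw [hl, show 2 * N - 1 + 1 = 2 * N by omega]
  have h3 := KP_pos hn ho
  rw [h2, le_div_iff₀ h3] at h1
  have h4 : ((n : ℝ) + 1) / 4 = (N : ℝ) / 2 := by
    have : ((n : ℝ) + 1) = 2 * N := by
      have : n + 1 = 2 * N := by omega
      exact_mod_cast this
    rw [this]
    ring
  rw [h4]
  exact h1

/-- the moments of the area from below -/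
theorem area_low_pow {n : ℕ} (hn : 3 ≤ n) (ho : n % 2 = 1) (k : ℕ) :
    (((n : ℝ) + 1) / 4) ^ k * ((KP n).card : ℝ) ≤ ∑ w ∈ KP n, (ar w : ℝ) ^ k := by
  have h3 := KP_pos hn ho
  have h1 := Real.pow_arith_mean_le_arith_mean_pow (KP n) (fun _ => 1 / ((KP n).card : ℝ))
    (fun w => (ar w : ℝ)) (fun _ _ => by positivity) (by
      rw [sum_const, nsmul_eq_mul]
      field_simp) (fun _ _ => Nat.cast_nonneg _) k
  rw [← mul_sum, ← mul_sum] at h1
  have h2 := area_low hn ho
  have h4 : ((n : ℝ) + 1) / 4 ≤ 1 / ((KP n).card : ℝ) * ∑ w ∈ KP n, (ar w : ℝ) := by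
    rw [one_div, inv_mul_eq_div, le_div_iff₀ h3]
    exact h2
  have h5 : (((n : ℝ) + 1) / 4) ^ k ≤ 1 / ((KP n).card : ℝ) * ∑ w ∈ KP n, (ar w : ℝ) ^ k :=
    (pow_le_pow_left₀ (by positivity) h4 k).trans h1
  rw [one_div, inv_mul_eq_div, le_div_iff₀ h3] at h5
  exact h5

theorem area_main (k : ℕ) : ∀ r : ℕ, 1 ≤ r → ∃ C : ℝ, 0 < C ∧ ∀ n : ℕ, 2 ≤ n →
      |∑ i ∈ range (r + 1), (-1 : ℝ) ^ i * (r.choose i : ℝ) *
        Real.log ((∑ w ∈ KP (2 * (n + i) - 1), (ar w : ℝ) ^ k) /
          ((KP (2 * (n + i) - 1)).card : ℝ))| ≤ C * (Real.log n / Real.sqrt n) ^ r := by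
  intro r hr
  have hGs : ∀ n, 3 ≤ n → ∑ w ∈ KP n, Gk1 k w = ∑ w ∈ KP n, (ar w : ℝ) ^ k := by
    intro n hn
    refine sum_congr rfl (fun w hw => ?_)
    have := (KP_mem hw).2.2
    unfold Gk1
    rw [if_pos (by omega)]
  have hlow : ∀ n : ℕ, 3 ≤ n → n % 2 = 1 →
      ((n : ℝ) + 1) ^ k * ((KP n).card : ℝ) ≤ 4 ^ k * ∑ w ∈ KP n, (ar w : ℝ) ^ k := by
    intro n hn ho
    have h1 := area_low_pow hn ho k
    calc ((n : ℝ) + 1) ^ k * ((KP n).card : ℝ) =
          4 ^ k * ((((n : ℝ) + 1) / 4) ^ k * ((KP n).card : ℝ)) := by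
          rw [div_pow]
          field_simp
      _ ≤ _ := mul_le_mul_of_nonneg_left h1 (by positivity)
  obtain ⟨C, hC, h⟩ := gen_poly3_mean (Gk1 k) (2 ^ k * (1 + 12 ^ k)) (2 * k)
    (by
      have h1 : (1 : ℝ) ≤ 2 ^ k := one_le_pow₀ (by norm_num)
      have h2 : (1 : ℝ) ≤ 12 ^ k := one_le_pow₀ (by norm_num)
      nlinarith)
    (Gk1_nonneg k)
    (fun w hw hs => by
      unfold Gk1
      split_ifs with h3
      · have hl := Pool.Agent.H739K.F2aux.loop_of Pool.Agent.H739K.CONV_proof h3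
          (mem_SW.1 hw).2 hs
        have h4 : ar w ≤ (2 * (w.length + 1)) ^ 2 := by
          have : NeZero (w.length + 1) := ⟨by omega⟩
          exact Pool.Agent.H924P.all_area hl
        have h5 : (ar w : ℝ) ≤ 4 * ((w.length : ℝ) + 1) ^ 2 := by
          have : (ar w : ℝ) ≤ (2 * ((w.length : ℝ) + 1)) ^ 2 := by exact_mod_cast h4
          nlinarith
        calc (ar w : ℝ) ^ k ≤ (4 * ((w.length : ℝ) + 1) ^ 2) ^ k :=
              pow_le_pow_left₀ (Nat.cast_nonneg _) h5 k
          _ = 4 ^ k * ((w.length : ℝ) + 1) ^ (2 * k) := by rw [mul_pow, ← pow_mul]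
          _ ≤ 2 ^ k * (1 + 12 ^ k) * ((w.length : ℝ) + 1) ^ (2 * k) := by
              have h6 : (4 : ℝ) ^ k = 2 ^ k * 2 ^ k := by rw [← mul_pow]; norm_num
              have h7 : (2 : ℝ) ^ k ≤ 12 ^ k := pow_le_pow_left₀ (by norm_num) (by norm_num) k
              have h8 : (0 : ℝ) ≤ 2 ^ k := by positivity
              have h9 : (4 : ℝ) ^ k ≤ 2 ^ k * (1 + 12 ^ k) := by nlinarith
              gcongr
      · positivity)
    (fun n hn ho => by
      rw [hGs n hn]
      have h1 := hlow n hn ho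
      have h2 : (1 : ℝ) ≤ ((n : ℝ) + 1) ^ k := one_le_pow₀ (by
        have := Nat.cast_nonneg (α := ℝ) n
        linarith)
      have h3 : (4 : ℝ) ^ k ≤ 2 ^ k * (1 + 12 ^ k) := by
        have h6 : (4 : ℝ) ^ k = 2 ^ k * 2 ^ k := by rw [← mul_pow]; norm_num
        have h7 : (2 : ℝ) ^ k ≤ 12 ^ k := pow_le_pow_left₀ (by norm_num) (by norm_num) k
        have h8 : (0 : ℝ) ≤ 2 ^ k := by positivity
        nlinarith
      have h4 : (0 : ℝ) ≤ ∑ w ∈ KP n, (ar w : ℝ) ^ k := sum_nonneg (fun _ _ => by positivity)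
      calc ((KP n).card : ℝ) ≤ ((n : ℝ) + 1) ^ k * ((KP n).card : ℝ) :=
            le_mul_of_one_le_left (Nat.cast_nonneg _) h2
        _ ≤ 4 ^ k * ∑ w ∈ KP n, (ar w : ℝ) ^ k := h1
        _ ≤ _ := mul_le_mul_of_nonneg_right h3 h4)
    (fun L hL st fl hfl => by
      refine ⟨fun w => ((ar w : ℝ) + 2 * ((Sl L 0 0 w).card : ℝ)) ^ k, fun w => by positivity,
        fun w hw hs h3 => ?_, fun n hn ho => ?_⟩
      · have h1 := ((Rp.const (E := Sl L 0 0 w) (ar w : ℝ)).add
          (Rp.lin (E := Sl L 0 0 w) (sg w))).pow k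
        refine (h1.mono (le_of_eq ?_)).congr (fun U hU => ?_)
        · rw [abs_of_nonneg (Nat.cast_nonneg (α := ℝ) (ar w))]
          congr 3
          rw [sum_congr rfl (fun q _ => sg_abs w q)]
          simp
        · unfold Gk1
          rw [if_pos (by rw [hfl.fl_len w U hw hU]; omega), ar_fl hL hfl hw h3 hs hU]
      · rw [hGs n hn]
        have h1 : ∀ w ∈ KP n, ((ar (st w) : ℝ) + 2 * ((Sl L 0 0 (st w)).card : ℝ)) ^ k ≤
            2 ^ k * ((ar w : ℝ) ^ k + (3 * ((n : ℝ) + 1)) ^ k) := by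
          intro w hw
          obtain ⟨hwn, hs, hl⟩ := KP_mem hw
          have hw' : w ∈ SW w.length := by rw [hl]; exact hwn
          have e1 := hfl.st_em w (by omega) hw'
          have e2 := hfl.fl_st w (by omega) hw'
          have e3 : Oc L 0 0 w ⊆ Sl L 0 0 (st w) := by
            rw [hfl.st_sl w (by omega) hw']
            unfold Sl Oc
            exact OO_sub'
          have e4 : cl w = cl (st w) := by
            have := fl_inv hfl (D := Set.univ) (fun _ _ _ _ => Set.mem_univ _) (cl_iv Set.univ)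
              e1 e3
            rwa [e2] at this
          have e5 : sq (st w) = 1 := by
            unfold cl at e4
            rw [if_pos hs] at e4
            by_contra hcon
            rw [if_neg hcon] at e4
            exact one_ne_zero e4
          have e6 := sl_card hL (a := 0) (l := 0) (st w)
          have e7 := hfl.st_len w (by omega) hw'
          have e8 : ((Sl L 0 0 (st w)).card : ℝ) ≤ (n : ℝ) + 1 := by
            have : (Sl L 0 0 (st w)).card ≤ n + 1 := by omega
            exact_mod_cast this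
          by_cases h3 : 3 ≤ (st w).length
          · have e9 := ar_fl hL hfl e1 h3 e5 e3
            rw [e2] at e9
            have e10 : (ar (st w) : ℝ) ≤ (ar w : ℝ) + ((n : ℝ) + 1) := by
              have a1 : |∑ q ∈ Oc L 0 0 w, sg (st w) q| ≤ ((Oc L 0 0 w).card : ℝ) := by
                refine (abs_sum_le_sum_abs _ _).trans ?_
                rw [sum_congr rfl (fun q _ => sg_abs (st w) q)]
                simp
              have a2 := (abs_le.1 a1).1
              have a3 : ((Oc L 0 0 w).card : ℝ) ≤ (n : ℝ) + 1 := by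
                have : (Oc L 0 0 w).card ≤ n + 1 := by omega
                exact_mod_cast this
              linarith
            calc ((ar (st w) : ℝ) + 2 * ((Sl L 0 0 (st w)).card : ℝ)) ^ k
                ≤ ((ar w : ℝ) + 3 * ((n : ℝ) + 1)) ^ k :=
                  pow_le_pow_left₀ (by positivity) (by linarith) k
              _ ≤ (2 * max (ar w : ℝ) (3 * ((n : ℝ) + 1))) ^ k := by
                  refine pow_le_pow_left₀ (by positivity) ?_ k
                  have := le_max_left (ar w : ℝ) (3 * ((n : ℝ) + 1))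
                  have := le_max_right (ar w : ℝ) (3 * ((n : ℝ) + 1))
                  linarith
              _ ≤ 2 ^ k * ((ar w : ℝ) ^ k + (3 * ((n : ℝ) + 1)) ^ k) := by
                  rw [mul_pow]
                  refine mul_le_mul_of_nonneg_left ?_ (by positivity)
                  rcases le_total (ar w : ℝ) (3 * ((n : ℝ) + 1)) with hh | hh
                  · rw [max_eq_right hh]
                    have : 0 ≤ (ar w : ℝ) ^ k := by positivity
                    linarith
                  · rw [max_eq_left hh]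
                    have : 0 ≤ (3 * ((n : ℝ) + 1)) ^ k := by positivity
                    linarith
          · exfalso
            have b1 := no_slots (L := L) h3
            rw [b1, subset_empty] at e3
            rw [e3, card_empty] at e7
            omega
        refine (sum_le_sum h1).trans ?_
        rw [← mul_sum, sum_add_distrib, sum_const, nsmul_eq_mul]
        have h2 := hlow n hn ho
        have h4 : (0 : ℝ) ≤ ∑ w ∈ KP n, (ar w : ℝ) ^ k := sum_nonneg (fun _ _ => by positivity)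
        have h5 : ((KP n).card : ℝ) * (3 * ((n : ℝ) + 1)) ^ k ≤
            12 ^ k * ∑ w ∈ KP n, (ar w : ℝ) ^ k := by
          calc ((KP n).card : ℝ) * (3 * ((n : ℝ) + 1)) ^ k =
                3 ^ k * (((n : ℝ) + 1) ^ k * ((KP n).card : ℝ)) := by rw [mul_pow]; ring
            _ ≤ 3 ^ k * (4 ^ k * ∑ w ∈ KP n, (ar w : ℝ) ^ k) :=
                mul_le_mul_of_nonneg_left h2 (by positivity)
            _ = 12 ^ k * ∑ w ∈ KP n, (ar w : ℝ) ^ k := by
                rw [← mul_assoc, ← mul_pow]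
                norm_num
        calc 2 ^ k * (∑ w ∈ KP n, (ar w : ℝ) ^ k + ((KP n).card : ℝ) * (3 * ((n : ℝ) + 1)) ^ k)
            ≤ 2 ^ k * (∑ w ∈ KP n, (ar w : ℝ) ^ k + 12 ^ k * ∑ w ∈ KP n, (ar w : ℝ) ^ k) := by
              gcongr
          _ = _ := by ring) r hr
  refine ⟨C, hC, fun n hn => ?_⟩
  have h1 := h n hn
  refine le_trans (le_of_eq ?_) h1
  congr 1
  refine sum_congr rfl (fun i _ => ?_)
  rw [hGs _ (by omega)]

end

end Pool.Agent.N929.EZ
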