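import Pool.Agent.N929.EZ.Stm3
import Pool.Agent.N929.EZ.RpA
import Pool.Agent.N929.EX.Cor
import Pool.Agent.H739K.BOX

/-!
# The extent of a walk
-/

set_option autoImplicit false
set_option linter.unusedVariables false

namespace Pool.Agent.N929.EZ

open Pool.Agent.H976R2 Pool.Agent.H976R2.Dir Finset
open Pool.Agent.N929.EX Pool.Agent.N929.EY
open scoped Classical

noncomputable section

theorem le_mxx (w : List Dir) {t : ℕ} (ht : t ≤ w.length) : (Lip.PP w t).1 ≤ mxx w :=
  le_sup' (fun t => (Lip.PP w t).1) (mem_range.2 (by omega))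

theorem mnx_le (w : List Dir) {t : ℕ} (ht : t ≤ w.length) : mnx w ≤ (Lip.PP w t).1 :=
  inf'_le (fun t => (Lip.PP w t).1) (mem_range.2 (by omega))

theorem le_mxy (w : List Dir) {t : ℕ} (ht : t ≤ w.length) : (Lip.PP w t).2 ≤ mxy w :=
  le_sup' (fun t => (Lip.PP w t).2) (mem_range.2 (by omega))

theorem mny_le (w : List Dir) {t : ℕ} (ht : t ≤ w.length) : mny w ≤ (Lip.PP w t).2 :=
  inf'_le (fun t => (Lip.PP w t).2) (mem_range.2 (by omega))

theorem mxx_att (w : List Dir) : ∃ t, t ≤ w.length ∧ (Lip.PP w t).1 = mxx w := by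
  obtain ⟨t, ht, h⟩ := exists_mem_eq_sup' (s := range (w.length + 1)) ⟨0, by simp⟩
    (fun t => (Lip.PP w t).1)
  exact ⟨t, by rw [mem_range] at ht; omega, h.symm⟩

theorem mnx_att (w : List Dir) : ∃ t, t ≤ w.length ∧ (Lip.PP w t).1 = mnx w := by
  obtain ⟨t, ht, h⟩ := exists_mem_eq_inf' (s := range (w.length + 1)) ⟨0, by simp⟩
    (fun t => (Lip.PP w t).1)
  exact ⟨t, by rw [mem_range] at ht; omega, h.symm⟩

theorem mxy_att (w : List Dir) : ∃ t, t ≤ w.length ∧ (Lip.PP w t).2 = mxy w := by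
  obtain ⟨t, ht, h⟩ := exists_mem_eq_sup' (s := range (w.length + 1)) ⟨0, by simp⟩
    (fun t => (Lip.PP w t).2)
  exact ⟨t, by rw [mem_range] at ht; omega, h.symm⟩

theorem mny_att (w : List Dir) : ∃ t, t ≤ w.length ∧ (Lip.PP w t).2 = mny w := by
  obtain ⟨t, ht, h⟩ := exists_mem_eq_inf' (s := range (w.length + 1)) ⟨0, by simp⟩
    (fun t => (Lip.PP w t).2)
  exact ⟨t, by rw [mem_range] at ht; omega, h.symm⟩

theorem PP_zero (w : List Dir) : Lip.PP w 0 = (0, 0) := by
  unfold Lip.PP
  simp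

/-- one step -/
theorem PP_one (w : List Dir) {t : ℕ} (ht : t < w.length) :
    (|(Lip.PP w (t + 1)).1 - (Lip.PP w t).1| = 1 ∧ (Lip.PP w (t + 1)).2 = (Lip.PP w t).2) ∨
    (|(Lip.PP w (t + 1)).2 - (Lip.PP w t).2| = 1 ∧ (Lip.PP w (t + 1)).1 = (Lip.PP w t).1) := by
  rw [Lip.PP_succ w t ht]
  unfold Lip.dv
  cases lt w t <;> simp [dx, dy]

theorem PP_dist (w : List Dir) {s t : ℕ} (hst : s ≤ t) (ht : t ≤ w.length) :
    |(Lip.PP w t).1 - (Lip.PP w s).1| ≤ (t : ℤ) - s ∧
      |(Lip.PP w t).2 - (Lip.PP w s).2| ≤ (t : ℤ) - s := by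
  induction t with
  | zero =>
    have : s = 0 := by omega
    subst this
    simp
  | succ t ih =>
    rcases Nat.lt_or_ge t s with h | h
    · have : s = t + 1 := by omega
      subst this
      simp
    · have h1 := ih h (by omega)
      have h2 := PP_one w (t := t) (by omega)
      push_cast
      constructor
      · rcases h2 with h2 | h2
        · have := abs_sub_le (Lip.PP w (t + 1)).1 (Lip.PP w t).1 (Lip.PP w s).1
          omega
        · rw [h2.2]
          omega
      · rcases h2 with h2 | h2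
        · rw [h2.2]
          omega
        · have := abs_sub_le (Lip.PP w (t + 1)).2 (Lip.PP w t).2 (Lip.PP w s).2
          omega

/-- the extent is at most the number of steps -/
theorem ext_le (w : List Dir) : mxx w - mnx w ≤ w.length ∧ mxy w - mny w ≤ w.length := by
  constructor
  · obtain ⟨t, ht, h1⟩ := mxx_att w
    obtain ⟨s, hs, h2⟩ := mnx_att w
    rw [← h1, ← h2]
    rcases le_total s t with h | h
    · have := (PP_dist w h ht).1
      have := le_abs_self ((Lip.PP w t).1 - (Lip.PP w s).1)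
      omega
    · have := (PP_dist w h hs).1
      have := neg_abs_le ((Lip.PP w s).1 - (Lip.PP w t).1)
      omega
  · obtain ⟨t, ht, h1⟩ := mxy_att w
    obtain ⟨s, hs, h2⟩ := mny_att w
    rw [← h1, ← h2]
    rcases le_total s t with h | h
    · have := (PP_dist w h ht).2
      have := le_abs_self ((Lip.PP w t).2 - (Lip.PP w s).2)
      omega
    · have := (PP_dist w h hs).2
      have := neg_abs_le ((Lip.PP w s).2 - (Lip.PP w t).2)
      omega

theorem ext_nonneg (w : List Dir) : mnx w ≤ mxx w ∧ mny w ≤ mxy w :=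
  ⟨(mnx_le w (t := 0) (Nat.zero_le _)).trans (le_mxx w (Nat.zero_le _)),
    (mny_le w (t := 0) (Nat.zero_le _)).trans (le_mxy w (Nat.zero_le _))⟩

/-- a closed walk has positive width -/
theorem wid_pos {w : List Dir} (hw : w ∈ SW w.length) (hs : sq w = 1) (h3 : 3 ≤ w.length) :
    mnx w + 1 ≤ mxx w := by
  by_contra hcon
  have hx : ∀ t, t ≤ w.length → (Lip.PP w t).1 = 0 := by
    intro t ht
    have h1 := le_mxx w ht
    have h2 := mnx_le w ht
    have h4 := le_mxx w (t := 0) (Nat.zero_le _)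
    have h5 := mnx_le w (t := 0) (Nat.zero_le _)
    rw [PP_zero] at h4 h5
    simp only at h4 h5
    omega
  -- the steps are vertical and in one direction
  have hst : ∀ t, t < w.length → |(Lip.PP w (t + 1)).2 - (Lip.PP w t).2| = 1 := by
    intro t ht
    rcases PP_one w ht with h | h
    · have h1 := hx t ht.le
      have h2 := hx (t + 1) (by omega)
      rw [h1, h2] at h
      simp at h
    · exact h.1
  obtain ⟨d, hd⟩ : ∃ d, d = (Lip.PP w 1).2 - (Lip.PP w 0).2 := ⟨_, rfl⟩
  have hd1 : |d| = 1 := by rw [hd]; exact hst 0 (by omega)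
  have hstep : ∀ t, t < w.length → (Lip.PP w (t + 1)).2 = (Lip.PP w t).2 + d := by
    intro t
    induction t with
    | zero => intro _; rw [hd]; ring
    | succ t ih =>
      intro ht
      have h1 := ih (by omega)
      have h2 := hst (t + 1) ht
      have h4 : Lip.PP w (t + 2) ≠ Lip.PP w t := fun h => by
        have := PP_inj hw (by omega) (by omega) h
        omega
      have h5 : (Lip.PP w (t + 2)).2 ≠ (Lip.PP w t).2 := fun h => h4 (Prod.ext
        (by rw [hx (t + 2) (by omega), hx t (by omega)]) h)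
      have h6 : t + 1 + 1 = t + 2 := rfl
      rw [h6] at h2 ⊢
      rcases (abs_eq (by norm_num)).1 hd1 with h7 | h7 <;>
        rcases (abs_eq (by norm_num)).1 h2 with h8 | h8 <;> omega
  have hpos : ∀ t, t ≤ w.length → (Lip.PP w t).2 = t * d := by
    intro t
    induction t with
    | zero => intro _; rw [PP_zero]; simp
    | succ t ih =>
      intro ht
      rw [hstep t (by omega), ih (by omega)]
      push_cast
      ring
  have h1 := hpos w.length le_rfl
  have h2 := hx w.length le_rfl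
  have e1 : Lip.PP w w.length = (wX w, wY w) := by
    unfold Lip.PP
    rw [List.take_length]
  rw [e1] at h1 h2
  simp only at h1 h2
  unfold Pool.Agent.H976R2.sq at hs
  rw [h1, h2] at hs
  have h4 : ((w.length : ℤ) * d) ^ 2 = 1 := by
    have : ((((w.length : ℤ) * d) ^ 2 : ℤ) : ℝ) = 1 := by
      push_cast
      push_cast at hs
      linarith
    exact_mod_cast this
  have h5 : d ^ 2 = 1 := by
    rw [← sq_abs, hd1]
    norm_num
  rw [mul_pow, h5, mul_one] at h4
  nlinarith

/-- the width of the loop of a word -/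
theorem width_eq (w : List Dir) :
    (Pool.Agent.H924P.width (w.length + 1) (Pool.Agent.H739K.lp (w.length + 1) w) : ℤ) =
      mxx w - mnx w := by
  have hv : ∀ p, vis w p → ∃ t, t ≤ w.length ∧ Lip.PP w t = p := by
    rintro p ⟨a, b, h1, h2, h3⟩
    refine ⟨a.length, by rw [h1]; simp, ?_⟩
    unfold Lip.PP
    have : w.take a.length = a := by rw [h1]; simp
    rw [this, h2, h3]
  have hv' : ∀ t, vis w (Lip.PP w t) := fun t =>
    ⟨w.take t, w.drop t, (List.take_append_drop t w).symm, rfl, rfl⟩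
  refine Pool.Agent.H739K.BOXx.width_of w (mxx w) (mnx w) ?_ ?_ ?_
  · intro p hp
    obtain ⟨t, ht, rfl⟩ := hv p hp
    exact ⟨mnx_le w ht, le_mxx w ht⟩
  · obtain ⟨t, ht, h⟩ := mxx_att w
    exact ⟨_, hv' t, h⟩
  · obtain ⟨t, ht, h⟩ := mnx_att w
    exact ⟨_, hv' t, h⟩

/-- the indicator function of a hit -/
theorem Rp.hit {E : Finset (ℤ × ℤ)} (c : (ℤ × ℤ) → Prop) :
    Rp E (fun U => if (∃ q ∈ U, c q) then 1 else 0) 2 := by
  have h := (Rp.const (E := E) 1).add
    ((Rp.ind (E := E) (T := E.filter c) (filter_subset _ _)).smul (-1))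
  refine (h.mono (by norm_num)).congr (fun U hU => ?_)
  have e : Disjoint (E.filter c) U ↔ ¬ ∃ q ∈ U, c q := by
    rw [disjoint_left]
    constructor
    · rintro h1 ⟨q, hq, hc⟩
      exact h1 (mem_filter.2 ⟨hU hq, hc⟩) hq
    · intro h1 q hq hq'
      exact h1 ⟨q, hq', (mem_filter.1 hq).2⟩
  by_cases h1 : ∃ q ∈ U, c q
  · simp [e, h1]
  · simp [e, h1]

end

end Pool.Agent.N929.EZ
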