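import Pool.Agent.N929.EZ.Lib2

/-!
# Regularity to all orders of the logarithms, with an averaged condition
-/

set_option autoImplicit false
set_option linter.unusedVariables false

namespace Pool.Agent.N929.EZ

open Pool.Agent.H976R2 Pool.Agent.H976R2.Dir Finset
open Pool.Agent.N929.EX Pool.Agent.N929.EY
open scoped Classical

noncomputable section

theorem gen2 : ∃ μ K : ℝ, 2.43 ≤ μ ∧ 0 ≤ K ∧ (∀ n : ℕ, μ ^ n ≤ ((SW n).card : ℝ)) ∧
    (∀ m n : ℕ, 2 ≤ n → m ≤ n →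
      ((SW m).card : ℝ) ≤ 4 * (μ ^ m * Real.exp (K * Real.log n ^ 2))) ∧
    ∀ (P : ℕ → Prop) (F : List Dir → ℝ) (D : Set (ℤ × ℤ)) (C₀ : ℝ) (p : ℕ), 0 ≤ C₀ →
      (∀ n, P n → 2 ≤ n) → (∀ n, P n → P (n + 2)) →
      (∀ w, w ∈ SW w.length → |F w| ≤ C₀ * ((w.length : ℝ) + 1) ^ p) →
      (∀ w, 0 ≤ F w) →
      (∀ w, F w ≠ 0 → ∀ t, t ≤ w.length → Lip.PP w t ∈ D) →
      (∀ L : Finset (ℤ × ℤ), CF L → (∀ q ∈ L, Cs D q) → ∀ st fl, Fill L 0 0 st fl →
        ∃ M : List Dir → ℝ, (∀ w, 0 ≤ M w) ∧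
          (∀ w, Em L 0 0 w → Rp (Sl L 0 0 w) (fun U => F (fl w U)) (M w)) ∧
          ∀ n, P n → ∑ w ∈ SW n, M (st w) ≤ C₀ * ∑ w ∈ SW n, F w) →
      (∀ n, P n → 0 < ∑ w ∈ SW n, F w) →
      (∃ K' : ℝ, 0 ≤ K' ∧ ∀ n, P n →
        ((SW n).card : ℝ) ≤ Real.exp (K' * Real.log n ^ 2) * ∑ w ∈ SW n, F w) →
      ∀ r : ℕ, 1 ≤ r → ∃ C : ℝ, 0 < C ∧ ∀ n : ℕ, P n →
        |∑ i ∈ range (r + 1), (-1 : ℝ) ^ i * (r.choose i : ℝ) *
          Real.log ((∑ w ∈ SW (n + 2 * i), F w) / μ ^ (n + 2 * i))| ≤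
          C * (Real.log n / Real.sqrt n) ^ r := by
  obtain ⟨μ, K, hμ, hK, hlow, hupp, hmain⟩ := s_aof
  refine ⟨μ, K, hμ, hK, hlow, hupp, ?_⟩
  intro P F D C₀ p hC₀ hP2 hPs hFB hF0 hFD hrep hpos hK'
  obtain ⟨K', hK'0, hcmp⟩ := hK'
  obtain ⟨E, hE⟩ : ∃ E : ℕ → ℝ, ∀ n, E n = (C₀ * (3 * (n : ℝ) + 1) ^ p) * ((SW n).card : ℝ) :=
    ⟨_, fun _ => rfl⟩
  have hE0 : ∀ n, 0 ≤ E n := fun n => by rw [hE]; positivity
  refine s_fin μ P (fun n => ∑ w ∈ SW n, F w) E (by linarith) hP2 hPs hpos hE0 ?_ ?_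
  · -- the error terms
    refine ⟨K' + 3 * (C₀ + 3 * p), by positivity, fun n hn => ?_⟩
    have hn2 := hP2 n hn
    have hn' : (2 : ℝ) ≤ n := by exact_mod_cast hn2
    have hlog : (0.69 : ℝ) ≤ Real.log n := by
      have := Real.log_two_gt_d9
      have h3 : Real.log 2 ≤ Real.log n := Real.log_le_log (by norm_num) hn'
      linarith
    have hlog2 : (0.476 : ℝ) ≤ Real.log n ^ 2 := by nlinarith
    have hlog3 : Real.log n ≤ 1.45 * Real.log n ^ 2 := by nlinarith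
    have hp0 : (0 : ℝ) ≤ p := Nat.cast_nonneg p
    have h1 : C₀ ≤ Real.exp (3 * C₀ * Real.log n ^ 2) := by
      have h2 := Real.add_one_le_exp (3 * C₀ * Real.log n ^ 2)
      nlinarith
    have h2 : (3 * (n : ℝ) + 1) ^ p ≤ Real.exp (3 * (3 * p) * Real.log n ^ 2) := by
      have h3 : 3 * (n : ℝ) + 1 ≤ Real.exp (9 * Real.log n ^ 2) := by
        have h4 : 3 * (n : ℝ) + 1 ≤ (n : ℝ) ^ 3 := by nlinarith [mul_self_nonneg ((n : ℝ) - 2)]
        have h5 : (n : ℝ) ^ 3 = Real.exp (3 * Real.log n) := by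
          rw [mul_comm, Real.exp_mul, Real.exp_log (by linarith)]
          norm_cast
        rw [h5] at h4
        refine h4.trans (Real.exp_le_exp.mpr ?_)
        linarith
      calc (3 * (n : ℝ) + 1) ^ p ≤ Real.exp (9 * Real.log n ^ 2) ^ p :=
            pow_le_pow_left₀ (by positivity) h3 p
        _ = Real.exp (3 * (3 * p) * Real.log n ^ 2) := by rw [← Real.exp_nat_mul]; ring_nf
    rw [hE]
    calc C₀ * (3 * (n : ℝ) + 1) ^ p * ((SW n).card : ℝ)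
        ≤ Real.exp (3 * C₀ * Real.log n ^ 2) * Real.exp (3 * (3 * p) * Real.log n ^ 2) *
          (Real.exp (K' * Real.log n ^ 2) * ∑ w ∈ SW n, F w) := by
          have := hcmp n hn
          gcongr
      _ = Real.exp ((K' + 3 * (C₀ + 3 * p)) * Real.log n ^ 2) * ∑ w ∈ SW n, F w := by
          rw [← mul_assoc, ← Real.exp_add, ← Real.exp_add]
          ring_nf
  · intro r
    obtain ⟨A, C, hA, hC, h⟩ := hmain r
    refine ⟨A + 5 * r, C * (C₀ + 1), by positivity, by positivity, fun n ε hn hε hε1 hAn => ?_⟩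
    have hn2 := hP2 n hn
    have hn' : (2 : ℝ) ≤ n := by exact_mod_cast hn2
    have hlog : (0.69 : ℝ) ≤ Real.log n := by
      have := Real.log_two_gt_d9
      have h3 : Real.log 2 ≤ Real.log n := Real.log_le_log (by norm_num) hn'
      linarith
    have hlog2 : (0.476 : ℝ) ≤ Real.log n ^ 2 := by nlinarith
    have hr0 : (0 : ℝ) ≤ r := Nat.cast_nonneg r
    have hAn' : A * Real.log n ^ 2 ≤ ε ^ 2 * n := by
      refine le_trans ?_ hAn
      gcongr
      linarith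
    have hrn : r ≤ n := by
      have h1 : 5 * (r : ℝ) * Real.log n ^ 2 ≤ n := by
        have h2 : ε ^ 2 * n ≤ n :=
          mul_le_of_le_one_left (Nat.cast_nonneg n) (pow_le_one₀ hε.le hε1)
        have h3 : 5 * (r : ℝ) * Real.log n ^ 2 ≤ (A + 5 * r) * Real.log n ^ 2 := by
          gcongr
          linarith
        linarith
      have h2 : (r : ℝ) ≤ n := by nlinarith
      exact_mod_cast h2
    obtain ⟨L, hL, hLD, hl⟩ := h n 0 0 ε hn2 (by omega) hε hε1 hAn' D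
    obtain ⟨st, fl, hfl⟩ := s_bij L hL 0 0
    obtain ⟨M', hM'0, hM'1, hM'2⟩ := hrep L hL hLD st fl hfl
    have hB : ∀ i ∈ range (r + 1), ∀ w ∈ SW (n + 2 * i), |F w| ≤ C₀ * (3 * (n : ℝ) + 1) ^ p := by
      intro i hi w hw
      rw [mem_range] at hi
      have hlen : w.length = n + 2 * i := (mem_SW.1 hw).1
      have h1 := hFB w (by rw [hlen]; exact hw)
      refine h1.trans ?_
      rw [hlen]
      have hi' : i ≤ n := by omega
      have hi2 : (i : ℝ) ≤ n := by exact_mod_cast hi'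
      gcongr
      push_cast
      linarith
    have h1 := hl st fl hfl F M' (C₀ * (3 * (n : ℝ) + 1) ^ p) (by positivity) hM'0 hB hFD
      hM'1
    refine h1.trans ?_
    have h2 := hM'2 n hn
    have hT : 0 ≤ ∑ w ∈ SW n, F w := sum_nonneg (fun w _ => hF0 w)
    have e5 : Real.exp (-(ε ^ 2 * n / A)) ≤ Real.exp (-(ε ^ 2 * n / (A + 5 * r))) := by
      apply Real.exp_le_exp.mpr
      apply neg_le_neg
      apply div_le_div_of_nonneg_left (by positivity) hA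
      linarith
    have hε0 : 0 ≤ ε ^ r := by positivity
    have h6 : C₀ * (3 * (n : ℝ) + 1) ^ p * (Real.exp (-(ε ^ 2 * n / A)) * ((SW n).card : ℝ)) ≤
        Real.exp (-(ε ^ 2 * n / (A + 5 * r))) * E n := by
      rw [hE]
      calc C₀ * (3 * (n : ℝ) + 1) ^ p * (Real.exp (-(ε ^ 2 * n / A)) * ((SW n).card : ℝ))
          ≤ C₀ * (3 * (n : ℝ) + 1) ^ p *
            (Real.exp (-(ε ^ 2 * n / (A + 5 * r))) * ((SW n).card : ℝ)) := by gcongr
        _ = _ := by ring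
    have hX : 0 ≤ Real.exp (-(ε ^ 2 * n / (A + 5 * r))) * E n := by
      have := hE0 n
      positivity
    calc C * (ε ^ r * (∑ w ∈ SW n, M' (st w)) +
          C₀ * (3 * (n : ℝ) + 1) ^ p * (Real.exp (-(ε ^ 2 * n / A)) * ((SW n).card : ℝ)))
        ≤ C * (ε ^ r * (C₀ * ∑ w ∈ SW n, F w) + Real.exp (-(ε ^ 2 * n / (A + 5 * r))) * E n) := by
          gcongr
      _ ≤ C * ((C₀ + 1) * (ε ^ r * ∑ w ∈ SW n, F w) +
          (C₀ + 1) * (Real.exp (-(ε ^ 2 * n / (A + 5 * r))) * E n)) := by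
          apply mul_le_mul_of_nonneg_left _ hC.le
          have a1 : 0 ≤ ε ^ r * ∑ w ∈ SW n, F w := mul_nonneg hε0 hT
          have a2 := mul_nonneg hC₀ hX
          nlinarith
      _ = C * (C₀ + 1) * (ε ^ r * ∑ w ∈ SW n, F w +
          Real.exp (-(ε ^ 2 * n / (A + 5 * r))) * E n) := by ring

end

end Pool.Agent.N929.EZ
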