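import Pool.Agent.N929.EZ.Stm
import Pool.Agent.N929.EY.MI
import Pool.Agent.N929.EY.CLW

/-!
# The balanced classes
-/

set_option autoImplicit false
set_option linter.unusedVariables false

namespace Pool.Agent.N929.EZ

open Pool.Agent.H976R2 Pool.Agent.H976R2.Dir Finset
open Pool.Agent.N929.EX Pool.Agent.N929.EY
open scoped Classical

noncomputable section

/-- the balance condition for `S` slots, `k` of them occupied -/
def Gk (m ε : ℝ) (S k : ℕ) : Prop :=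
  k ≤ S ∧ 1 ≤ ε ^ 2 * (k : ℝ) ∧ |((S : ℝ) - k) / ((k : ℝ) + 1) - m| ≤ ε * m

/-- the balance condition for a walk with `2 * i` additional steps -/
def Bal (m ε : ℝ) (i S j : ℕ) : Prop := i ≤ j ∧ Gk m ε S (j - i)

abbrev K1 := ℝ × Finset (ℤ × ℤ) × ℕ

/-- the balanced walks with `2 * i` additional steps -/
def GG (L : Finset (ℤ × ℤ)) (m ε : ℝ) (n a l i : ℕ) : Finset (List Dir) :=
  (SW (n + 2 * i)).filter (fun w => Bal m ε i (DD L 1 (a, n + 2 * i - l) w).card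
    (OO L 1 (a, n + 2 * i - l) w).card)

/-- the key of a walk with `2 * i` additional steps -/
def ky (L : Finset (ℤ × ℤ)) (F : List Dir → ℝ) (n a l i : ℕ) (w : List Dir) : K1 :=
  (F w, DD L 1 (a, n + 2 * i - l) w, (OO L 1 (a, n + 2 * i - l) w).card - i)

/-- the balanced class is `H1` -/
theorem cls_eq {L : Finset (ℤ × ℤ)} (hL : CF L) {F : List Dir → ℝ} {m ε : ℝ} {n a l i : ℕ}
    (h : a + l ≤ n) (x : K1) (hx : Gk m ε x.2.1.card x.2.2) (h2 : 2 * x.2.2 ≤ n - a - l) :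
    (GG L m ε n a l i).filter (fun w => ky L F n a l i w = x) =
      H1 L F x.1 x.2.1 a (n - a - l - 2 * x.2.2) l (x.2.2 + i) := by
  obtain ⟨v, E, k⟩ := x
  simp only at hx h2 ⊢
  have e1 : a + (n - a - l - 2 * k + 2 * (k + i)) = n + 2 * i - l := by omega
  have e2 : n + 2 * i - l + l = n + 2 * i := by omega
  unfold H1 GG ky
  rw [e1, e2]
  ext w
  simp only [mem_filter, Prod.mk.injEq]
  constructor
  · rintro ⟨⟨h1, h3⟩, h4, h5, h6⟩
    have := h3.1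
    exact ⟨h1, h4, h5, by omega⟩
  · rintro ⟨h1, h4, h5, h6⟩
    refine ⟨⟨h1, ?_, ?_⟩, h4, h5, by omega⟩
    · omega
    · rw [h5, h6, Nat.add_sub_cancel]
      exact hx

theorem ky_ok {L : Finset (ℤ × ℤ)} (hL : CF L) {F : List Dir → ℝ} {m ε : ℝ} {n a l i : ℕ}
    (h : a + l ≤ n) (w : List Dir) (hw : w ∈ GG L m ε n a l i) :
    Gk m ε (ky L F n a l i w).2.1.card (ky L F n a l i w).2.2 ∧
      2 * (ky L F n a l i w).2.2 ≤ n - a - l := by
  unfold GG at hw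
  rw [mem_filter] at hw
  have h1 := win_len hL (a := a) (b := n + 2 * i - l) (by omega) (by omega) hw.1
  refine ⟨hw.2.2, ?_⟩
  have := hw.2.1
  simp only [ky]
  omega

/-- the balanced part -/
theorem good (hcl : S_CL1) (hdif : S_DIF) : ∀ r : ℕ, ∃ C : ℝ, 0 < C ∧
    ∀ (n a l : ℕ) (m ε : ℝ), a + l ≤ n → 1 ≤ m → 0 < ε → ε ≤ 1 →
      ∀ (D : Set (ℤ × ℤ)) (F : List Dir → ℝ) (L : Finset (ℤ × ℤ)), (∀ w, 0 ≤ F w) → Iv D F a l →
        CF L → (∀ q ∈ L, Cs D q) →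
        |∑ i ∈ range (r + 1), (-1 : ℝ) ^ i * (r.choose i : ℝ) *
          ((∑ w ∈ GG L m ε n a l i, F w) / m ^ i)| ≤ C * ε ^ r * (∑ w ∈ SW n, F w) := by
  intro r
  obtain ⟨C, hC, hd⟩ := hdif r
  refine ⟨C, hC, fun n a l m ε hal hm hε hε1 D F L hF hI hL hLD => ?_⟩
  obtain ⟨X, hX⟩ : ∃ X : Finset K1, X = (range (r + 1)).biUnion (fun i =>
    (GG L m ε n a l i).image (ky L F n a l i)) := ⟨_, rfl⟩
  have hXk : ∀ x ∈ X, Gk m ε x.2.1.card x.2.2 ∧ 2 * x.2.2 ≤ n - a - l ∧ 0 ≤ x.1 := by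
    intro x hx
    rw [hX, mem_biUnion] at hx
    obtain ⟨i, -, hx⟩ := hx
    rw [mem_image] at hx
    obtain ⟨w, hw, rfl⟩ := hx
    exact ⟨(ky_ok hL hal w hw).1, (ky_ok hL hal w hw).2, hF w⟩
  obtain ⟨h, hh⟩ : ∃ h : K1 → ℝ, ∀ x, h x =
    ((H1 L F x.1 x.2.1 a (n - a - l - 2 * x.2.2) l 0).card : ℝ) := ⟨_, fun _ => rfl⟩
  have hsum : ∀ i ∈ range (r + 1), ∑ w ∈ GG L m ε n a l i, F w =
      ∑ x ∈ X, x.1 * (h x * (x.2.1.card.choose (x.2.2 + i) : ℝ)) := by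
    intro i hi
    rw [← sum_fiberwise_of_maps_to (s := GG L m ε n a l i) (t := X) (g := ky L F n a l i)
      (fun w hw => by
        rw [hX, mem_biUnion]
        exact ⟨i, hi, mem_image_of_mem _ hw⟩)]
    refine sum_congr rfl (fun x hx => ?_)
    have hk := hXk x hx
    have e1 : ∑ w ∈ (GG L m ε n a l i).filter (fun w => ky L F n a l i w = x), F w =
        ∑ w ∈ (GG L m ε n a l i).filter (fun w => ky L F n a l i w = x), x.1 := by
      refine sum_congr rfl (fun w hw => ?_)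
      rw [mem_filter] at hw
      rw [← hw.2]
      rfl
    rw [e1, cls_eq hL hal x hk.1 hk.2.1, sum_const, nsmul_eq_mul,
      hcl D L hL hLD F a l hI x.1 x.2.1 (n - a - l - 2 * x.2.2) (x.2.2 + i), hh]
    push_cast
    ring
  have e2 : ∑ i ∈ range (r + 1), (-1 : ℝ) ^ i * (r.choose i : ℝ) *
      ((∑ w ∈ GG L m ε n a l i, F w) / m ^ i) =
      ∑ x ∈ X, x.1 * h x * ∑ i ∈ range (r + 1), (-1 : ℝ) ^ i * (r.choose i : ℝ) *
        ((x.2.1.card.choose (x.2.2 + i) : ℝ) / m ^ i) := by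
    rw [sum_congr rfl (fun i hi => by rw [hsum i hi])]
    simp_rw [mul_sum, Finset.sum_div, mul_sum]
    rw [sum_comm]
    refine sum_congr rfl (fun x _ => sum_congr rfl (fun i _ => ?_))
    ring
  have e3 : ∑ x ∈ X, x.1 * h x * (x.2.1.card.choose x.2.2 : ℝ) ≤ ∑ w ∈ SW n, F w := by
    have h0 := hsum 0 (by simp)
    have h1 : ∑ x ∈ X, x.1 * h x * (x.2.1.card.choose x.2.2 : ℝ) =
        ∑ w ∈ GG L m ε n a l 0, F w := by
      rw [h0]
      refine sum_congr rfl (fun x _ => ?_)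
      rw [Nat.add_zero]
      ring
    rw [h1]
    refine sum_le_sum_of_subset_of_nonneg ?_ (fun w _ _ => hF w)
    unfold GG
    rw [Nat.mul_zero, Nat.add_zero]
    exact filter_subset _ _
  rw [e2]
  refine (abs_sum_le_sum_abs _ _).trans ?_
  have e4 : ∀ x ∈ X, |x.1 * h x * ∑ i ∈ range (r + 1), (-1 : ℝ) ^ i * (r.choose i : ℝ) *
        ((x.2.1.card.choose (x.2.2 + i) : ℝ) / m ^ i)| ≤
      C * ε ^ r * (x.1 * h x * (x.2.1.card.choose x.2.2 : ℝ)) := by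
    intro x hx
    obtain ⟨⟨g1, g2, g3⟩, -, g4⟩ := hXk x hx
    have g5 : 0 ≤ x.1 * h x := mul_nonneg g4 (by rw [hh]; positivity)
    rw [abs_mul, abs_of_nonneg g5]
    calc x.1 * h x * |_| ≤ x.1 * h x * (C * ε ^ r * (x.2.1.card.choose x.2.2 : ℝ)) :=
          mul_le_mul_of_nonneg_left (hd _ _ m ε hm hε hε1 g1 g2 g3) g5
      _ = _ := by ring
  refine (sum_le_sum e4).trans ?_
  rw [← mul_sum]
  exact mul_le_mul_of_nonneg_left e3 (by positivity)

end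

end Pool.Agent.N929.EZ
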