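import Pool.Agent.N929.EZ.Gen

/-!
# Tools for the applications
-/

set_option autoImplicit false
set_option linter.unusedVariables false

namespace Pool.Agent.N929.EZ

open Pool.Agent.H976R2 Pool.Agent.H976R2.Dir Finset
open Pool.Agent.N929.EX Pool.Agent.N929.EY
open scoped Classical

noncomputable section

/-- a largest element in the lexicographic order -/
theorem lex_max {U : Finset (ℤ × ℤ)} (hU : U.Nonempty) : ∃ q ∈ U, ∀ x ∈ U, x ≠ q →
    x.1 < q.1 ∨ (x.1 = q.1 ∧ x.2 < q.2) := by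
  obtain ⟨q, hq, h⟩ := exists_max_image U (fun x => toLex x) hU
  refine ⟨q, hq, fun x hx hxq => ?_⟩
  have h1 := h x hx
  rw [Prod.Lex.toLex_le_toLex] at h1
  rcases h1 with h1 | ⟨h1, h2⟩
  · exact Or.inl h1
  · refine Or.inr ⟨h1, lt_of_le_of_ne h2 (fun h3 => hxq (Prod.ext h1 h3))⟩

/-- induction over the filled slots -/
theorem fill_ind {L : Finset (ℤ × ℤ)} {a l : ℕ} {st : List Dir → List Dir}
    {fl : List Dir → Finset (ℤ × ℤ) → List Dir} (h : Fill L a l st fl) {w : List Dir}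
    (hw : Em L a l w) (Q : Finset (ℤ × ℤ) → List Dir → Prop) (h0 : Q ∅ w)
    (h1 : ∀ (U : Finset (ℤ × ℤ)) (q : ℤ × ℤ) (k : ℕ), U ⊆ Sl L a l w → q ∈ Sl L a l w → q ∉ U →
      a < k → k + 1 + l < w.length + 2 * U.card →
      Bp (w.length + 2 * U.card) k (fl w U) q (fl w (insert q U)) →
      Q U (fl w U) → Q (insert q U) (fl w (insert q U))) :
    ∀ U ⊆ Sl L a l w, Q U (fl w U) := by
  suffices H : ∀ (n : ℕ) (U : Finset (ℤ × ℤ)), U.card = n → U ⊆ Sl L a l w → Q U (fl w U) from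
    fun U hU => H _ U rfl hU
  intro n
  induction n with
  | zero =>
    intro U hU _
    rw [card_eq_zero] at hU
    subst hU
    rw [h.fl_empty w hw]
    exact h0
  | succ n ih =>
    intro U hU hUS
    have hne : U.Nonempty := by
      rw [← card_pos]
      omega
    obtain ⟨q, hq, hmax⟩ := lex_max hne
    have e1 : insert q (U.erase q) = U := insert_erase hq
    have hc : (U.erase q).card = n := by rw [card_erase_of_mem hq, hU]; omega
    have hs : U.erase q ⊆ Sl L a l w := (erase_subset _ _).trans hUS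
    obtain ⟨k, hk1, hk2, hk3⟩ := h.fl_insert w (U.erase q) q hw hs (hUS hq) (notMem_erase _ _)
      (fun x hx => hmax x (mem_of_mem_erase hx) (ne_of_mem_erase hx))
    have h2 := h1 (U.erase q) q k hs (hUS hq) (notMem_erase _ _) hk1 hk2 hk3 (ih _ hc hs)
    rw [e1] at h2
    exact h2

/-- a functional that does not change if a bump is added -/
theorem fl_inv {L : Finset (ℤ × ℤ)} {a l : ℕ} {st : List Dir → List Dir}
    {fl : List Dir → Finset (ℤ × ℤ) → List Dir} (h : Fill L a l st fl) {D : Set (ℤ × ℤ)}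
    (hL : ∀ q ∈ L, Cs D q) {F : List Dir → ℝ} (hF : Iv D F a l) {w : List Dir}
    (hw : Em L a l w) {U : Finset (ℤ × ℤ)} (hU : U ⊆ Sl L a l w) : F (fl w U) = F w := by
  refine fill_ind h hw (fun _ w' => F w' = F w) rfl (fun U q k hU hq hqU hk1 hk2 hk3 hQ => ?_) U hU
  rw [hF _ k _ q _ hk3 hk1 hk2 (hL q ?_), hQ]
  unfold Sl EX.DD at hq
  exact (mem_filter.1 hq).1

/-- functions of the last point -/
theorem iv_end (D : Set (ℤ × ℤ)) (g : ℤ × ℤ → ℝ) :
    Iv D (fun w => g (Lip.PP w w.length)) 0 0 := by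
  intro n k w q w' h h1 h2 h3
  have e1 : w.length = n := (mem_SW.1 h.sw).1
  have e2 : w'.length = n + 2 := (mem_SW.1 h.sw').1
  show g _ = g _
  rw [e1, e2, h.hi n (by omega) le_rfl]

/-- the sites after adding a bump -/
theorem bp_site {n k : ℕ} {w : List Dir} {q : ℤ × ℤ} {w' : List Dir} (h : Bp n k w q w') {t : ℕ}
    (ht : t ≤ n + 2) : Cn q (Lip.PP w' t) ∨ ∃ s, s ≤ n ∧ Lip.PP w' t = Lip.PP w s := by
  have e2 : w'.length = n + 2 := (mem_SW.1 h.sw').1
  have hk := h.at3.1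
  rcases Nat.lt_or_ge t k with h1 | h1
  · exact Or.inr ⟨t, by omega, h.lo t h1⟩
  · rcases Nat.lt_or_ge (k + 3) t with h3 | h3
    · refine Or.inr ⟨t - 2, by omega, ?_⟩
      have := h.hi (t - 2) (by omega) (by omega)
      rwa [show t - 2 + 2 = t by omega] at this
    · left
      exact (h.at3.2 t (by omega)).2 ⟨h1, h3⟩

theorem bp_site' {n k : ℕ} {w : List Dir} {q : ℤ × ℤ} {w' : List Dir} (h : Bp n k w q w') {t : ℕ}
    (ht : t ≤ n) : Cn q (Lip.PP w t) ∨ ∃ s, s ≤ n + 2 ∧ Lip.PP w t = Lip.PP w' s := by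
  have e2 : w.length = n := (mem_SW.1 h.sw).1
  rcases Nat.lt_or_ge t k with h1 | h1
  · exact Or.inr ⟨t, by omega, (h.lo t h1).symm⟩
  · rcases Nat.lt_or_ge (k + 1) t with h3 | h3
    · exact Or.inr ⟨t + 2, by omega, (h.hi t h3 ht).symm⟩
    · left
      exact (h.at1.2 t (by omega)).2 ⟨h1, h3⟩

/-- confinement -/
theorem iv_conf (D : Set (ℤ × ℤ)) (a l : ℕ) :
    Iv D (fun w => if (∀ t, t ≤ w.length → Lip.PP w t ∈ D) then 1 else 0) a l := by
  intro n k w q w' h h1 h2 h3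
  have e1 : w.length = n := (mem_SW.1 h.sw).1
  have e2 : w'.length = n + 2 := (mem_SW.1 h.sw').1
  have : (∀ t, t ≤ w'.length → Lip.PP w' t ∈ D) ↔ (∀ t, t ≤ w.length → Lip.PP w t ∈ D) := by
    rw [e1, e2]
    constructor
    · intro h4 t ht
      rcases bp_site' h ht with h5 | ⟨s, hs, h5⟩
      · exact h3 _ h5
      · rw [h5]
        exact h4 s hs
    · intro h4 t ht
      rcases bp_site h ht with h5 | ⟨s, hs, h5⟩
      · exact h3 _ h5
      · rw [h5]
        exact h4 s hs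
  show (if _ then (1 : ℝ) else 0) = if _ then (1 : ℝ) else 0
  rw [if_congr this rfl rfl]

/-- products of invariant functionals -/
theorem iv_mul {D : Set (ℤ × ℤ)} {F G : List Dir → ℝ} {a l : ℕ} (hF : Iv D F a l)
    (hG : Iv D G a l) : Iv D (fun w => F w * G w) a l := by
  intro n k w q w' h h1 h2 h3
  show F w' * G w' = F w * G w
  rw [hF n k w q w' h h1 h2 h3, hG n k w q w' h h1 h2 h3]

/-- representation of an invariant functional -/
theorem rep_inv {L : Finset (ℤ × ℤ)} {st : List Dir → List Dir}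
    {fl : List Dir → Finset (ℤ × ℤ) → List Dir} {D : Set (ℤ × ℤ)} {F : List Dir → ℝ}
    (hF : Iv D F 0 0) (hF0 : ∀ w, 0 ≤ F w) (hL : ∀ q ∈ L, Cs D q) (h : Fill L 0 0 st fl)
    (w : List Dir) (hw : Em L 0 0 w) : ∃ M : ℝ, Rp (Sl L 0 0 w) (fun U => F (fl w U)) M ∧
      ∀ U ⊆ Sl L 0 0 w, 2 ≤ (fl w U).length → M ≤ 1 * F (fl w U) := by
  refine ⟨|F w|, (Rp.const (F w)).congr (fun U hU => fl_inv h hL hF hw hU), fun U hU _ => ?_⟩
  rw [fl_inv h hL hF hw hU, one_mul, abs_of_nonneg (hF0 w)]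

end

end Pool.Agent.N929.EZ
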