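import Pool.Agent.N929.EZ.All2
import Pool.Agent.N929.EZ.Lib
import Pool.Agent.N278.EZ.Quo

/-!
# Tools for the applications: the connective constant, counts of walks
-/

set_option autoImplicit false
set_option linter.unusedVariables false

namespace Pool.Agent.N929.EZ

open Pool.Agent.H976R2 Pool.Agent.H976R2.Dir Finset Filter Topology
open Pool.Agent.N929.EX Pool.Agent.N929.EY
open scoped Classical

noncomputable section

/-- the connective constant -/
theorem root_lim {μ K : ℝ} (hμ : 2.43 ≤ μ) (hK : 0 ≤ K) (hlow : ∀ n : ℕ, μ ^ n ≤ ((SW n).card : ℝ))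
    (hupp : ∀ m n : ℕ, 2 ≤ n → m ≤ n →
      ((SW m).card : ℝ) ≤ 4 * (μ ^ m * Real.exp (K * Real.log n ^ 2))) :
    Tendsto (fun n : ℕ => ((SW n).card : ℝ) ^ ((1 : ℝ) / (n : ℝ))) atTop (𝓝 μ) := by
  have hμ0 : 0 < μ := by linarith
  have h1 : Tendsto (fun n : ℕ => μ * Real.exp (Real.log 4 / n + K * (Real.log n ^ 2 / n))) atTop
      (𝓝 μ) := by
    have h2 : Tendsto (fun n : ℕ => Real.log (n : ℝ) ^ 2 / (n : ℝ)) atTop (𝓝 0) := by
      have h3 := (isLittleO_log_rpow_rpow_atTop (r := 2) (s := 1) (by norm_num)).tendsto_div_nhds_zero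
      have h4 := h3.comp tendsto_natCast_atTop_atTop
      refine h4.congr (fun n => ?_)
      simp
    have h3 : Tendsto (fun n : ℕ => Real.log 4 / (n : ℝ)) atTop (𝓝 0) :=
      tendsto_const_div_atTop_nhds_zero_nat _
    have h4 : Tendsto (fun n : ℕ => Real.log 4 / (n : ℝ) + K * (Real.log n ^ 2 / n)) atTop
        (𝓝 (0 + K * 0)) := h3.add (h2.const_mul K)
    have h5 := (h4.rexp).const_mul μ
    simpa using h5
  refine tendsto_of_tendsto_of_tendsto_of_le_of_le' tendsto_const_nhds h1 ?_ ?_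
  · filter_upwards [eventually_ge_atTop 1] with n hn
    have hn0 : (0 : ℝ) < n := by exact_mod_cast hn
    calc μ = (μ ^ n) ^ ((1 : ℝ) / (n : ℝ)) := by
          rw [← Real.rpow_natCast, ← Real.rpow_mul hμ0.le, mul_one_div_cancel hn0.ne',
            Real.rpow_one]
      _ ≤ _ := Real.rpow_le_rpow (by positivity) (hlow n) (by positivity)
  · filter_upwards [eventually_ge_atTop 2] with n hn
    have hn0 : (0 : ℝ) < n := by exact_mod_cast (by omega : 0 < n)
    have h2 := hupp n n hn le_rfl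
    calc ((SW n).card : ℝ) ^ ((1 : ℝ) / (n : ℝ))
        ≤ (4 * (μ ^ n * Real.exp (K * Real.log n ^ 2))) ^ ((1 : ℝ) / (n : ℝ)) :=
          Real.rpow_le_rpow (by positivity) h2 (by positivity)
      _ = μ * Real.exp (Real.log 4 / n + K * (Real.log n ^ 2 / n)) := by
          have e1 : (4 : ℝ) * (μ ^ n * Real.exp (K * Real.log n ^ 2)) =
              Real.exp (Real.log 4 + (n * Real.log μ + K * Real.log n ^ 2)) := by
            rw [Real.exp_add, Real.exp_log (by norm_num), Real.exp_add]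
            congr 2
            rw [mul_comm, Real.exp_mul, Real.exp_log hμ0, Real.rpow_natCast]
          have e2 : μ * Real.exp (Real.log 4 / n + K * (Real.log n ^ 2 / n)) =
              Real.exp (Real.log μ + (Real.log 4 / n + K * (Real.log n ^ 2 / n))) := by
            rw [Real.exp_add (Real.log μ), Real.exp_log hμ0]
          rw [e1, ← Real.exp_mul, e2]
          congr 1
          field_simp
          ring

/-- quotients -/
theorem two_log {μ : ℝ} (hμ : 0 < μ) {r n : ℕ} {S T : ℕ → ℝ} (hS : ∀ i, i ≤ r → 0 < S (n + 2 * i))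
    (hT : ∀ i, i ≤ r → 0 < T (n + 2 * i)) {x y : ℝ}
    (h1 : |∑ i ∈ range (r + 1), (-1 : ℝ) ^ i * (r.choose i : ℝ) *
      Real.log (T (n + 2 * i) / μ ^ (n + 2 * i))| ≤ x)
    (h2 : |∑ i ∈ range (r + 1), (-1 : ℝ) ^ i * (r.choose i : ℝ) *
      Real.log (S (n + 2 * i) / μ ^ (n + 2 * i))| ≤ y) :
    |∑ i ∈ range (r + 1), (-1 : ℝ) ^ i * (r.choose i : ℝ) *
      Real.log (T (n + 2 * i) / S (n + 2 * i))| ≤ x + y := by
  have e : ∑ i ∈ range (r + 1), (-1 : ℝ) ^ i * (r.choose i : ℝ) *
      Real.log (T (n + 2 * i) / S (n + 2 * i)) =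
      ∑ i ∈ range (r + 1), (-1 : ℝ) ^ i * (r.choose i : ℝ) *
      Real.log (T (n + 2 * i) / μ ^ (n + 2 * i)) - ∑ i ∈ range (r + 1), (-1 : ℝ) ^ i *
      (r.choose i : ℝ) * Real.log (S (n + 2 * i) / μ ^ (n + 2 * i)) := by
    rw [← sum_sub_distrib]
    refine sum_congr rfl (fun i hi => ?_)
    rw [mem_range] at hi
    have a1 := hS i (by omega)
    have a2 := hT i (by omega)
    have a3 : 0 < μ ^ (n + 2 * i) := by positivity
    rw [Real.log_div a2.ne' a1.ne', Real.log_div a2.ne' a3.ne', Real.log_div a1.ne' a3.ne']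
    ring
  rw [e]
  exact (abs_sub _ _).trans (add_le_add h1 h2)

theorem Df_id (s : ℕ) (n : ℕ) : Df s (fun j : ℕ => (j : ℝ)) n =
    if s = 0 then (n : ℝ) else if s = 1 then -1 else 0 := by
  induction s generalizing n with
  | zero => simp [Df]
  | succ s ih =>
    rw [Pool.Agent.N278.EZ.Df_succ, ih, ih]
    rcases Nat.eq_zero_or_pos s with rfl | hs
    · simp
    · have h1 : s ≠ 0 := by omega
      have h2 : s + 1 ≠ 0 := by omega
      have h3 : s + 1 ≠ 1 := by omega
      rw [if_neg h1, if_neg h2, if_neg h3, if_neg h1]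
      ring

/-- differences of `log n` -/
theorem log_nat (r : ℕ) (hr : 1 ≤ r) : ∃ C : ℝ, 0 < C ∧ ∀ n : ℕ, 2 ≤ n →
    |∑ i ∈ range (r + 1), (-1 : ℝ) ^ i * (r.choose i : ℝ) * Real.log ((n : ℝ) + i)| ≤
      C * (Real.log n / Real.sqrt n) ^ r := by
  obtain ⟨C, hC, h⟩ := Pool.Agent.N507.EZ.log_diff r hr (r + 4) (by positivity)
  refine ⟨C * 4 ^ r, by positivity, fun n hn => ?_⟩
  have hn' : (2 : ℝ) ≤ n := by exact_mod_cast hn
  have hn0 : (0 : ℝ) < n := by linarith
  have h0 : Df 0 (fun j : ℕ => (j : ℝ)) = fun j : ℕ => (j : ℝ) := by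
    funext j
    simp [Df]
  have h1 := h (fun j => (j : ℝ)) n (1 / n) (by positivity)
    (by rw [div_le_one hn0]; linarith) (fun j _ => by push_cast; positivity)
    (fun j _ => by
      push_cast
      have := Nat.cast_nonneg (α := ℝ) j
      have := Nat.cast_nonneg (α := ℝ) r
      nlinarith)
    (fun s j hsj => ?_)
  · have e1 : Df r (fun j : ℕ => Real.log (j : ℝ)) n =
        ∑ i ∈ range (r + 1), (-1 : ℝ) ^ i * (r.choose i : ℝ) * Real.log ((n : ℝ) + i) := by
      unfold Df
      refine sum_congr rfl (fun i _ => ?_)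
      push_cast
      rfl
    rw [← e1]
    refine h1.trans ?_
    rw [mul_assoc, ← mul_pow]
    refine mul_le_mul_of_nonneg_left (pow_le_pow_left₀ (by positivity) ?_ r) hC.le
    have hlog : (0.69 : ℝ) ≤ Real.log n := by
      have := Real.log_two_gt_d9
      have h3 : Real.log 2 ≤ Real.log n := Real.log_le_log (by norm_num) hn'
      linarith
    have hs : Real.sqrt n * Real.sqrt n = n := Real.mul_self_sqrt hn0.le
    have hs0 : 0 < Real.sqrt n := Real.sqrt_pos.mpr hn0
    have hs1 : 1 ≤ Real.sqrt n := by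
      rw [Real.one_le_sqrt]
      linarith
    rw [mul_div_assoc', div_le_div_iff₀ hn0 hs0, one_mul]
    nlinarith
  · have hr0 := Nat.cast_nonneg (α := ℝ) r
    rw [Df_id]
    rcases Nat.eq_zero_or_pos s with rfl | hs
    · have hj : (j : ℝ) ≤ r := by exact_mod_cast (by omega : j ≤ r)
      have hj0 := Nat.cast_nonneg (α := ℝ) j
      rw [if_pos rfl, pow_zero, mul_one]
      push_cast
      rw [abs_of_nonneg (by positivity)]
      nlinarith
    · rw [if_neg (by omega)]
      split_ifs with h2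
      · subst h2
        rw [pow_one, abs_neg, abs_one, mul_assoc, one_div, inv_mul_cancel₀ hn0.ne']
        linarith
      · rw [abs_zero]
        positivity

end

end Pool.Agent.N929.EZ
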