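import Pool.Agent.N929.EZ.Poly

/-!
# Polygons: regularity to all orders
-/

set_option autoImplicit false
set_option linter.unusedVariables false

namespace Pool.Agent.N929.EZ

open Pool.Agent.H976R2 Pool.Agent.H976R2.Dir Finset Filter Topology
open Pool.Agent.N929.EX Pool.Agent.N929.EY
open scoped Classical

noncomputable section

theorem KP_pos {n : ℕ} (hn : 3 ≤ n) (ho : n % 2 = 1) :
    0 < ((Pool.Agent.H739K.KP n).card : ℝ) := by
  obtain ⟨K, hK, h⟩ := KP_low
  obtain ⟨μ, K', hμ, -, hlow, -, -⟩ := s_gen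
  have h1 := h n hn ho
  have h2 : 0 < ((SW n).card : ℝ) := lt_of_lt_of_le (by positivity) (hlow n)
  by_contra hcon
  have h3 : ((Pool.Agent.H739K.KP n).card : ℝ) = 0 :=
    le_antisymm (not_lt.1 hcon) (Nat.cast_nonneg _)
  rw [h3, mul_zero] at h1
  linarith

/-- functionals of closed walks -/
theorem gen_poly (G : List Dir → ℝ) (C₀ : ℝ) (p : ℕ) (hC₀ : 1 ≤ C₀)
    (hG0 : ∀ w, 0 ≤ G w)
    (hGB : ∀ w, w ∈ SW w.length → sq w = 1 → G w ≤ C₀ * ((w.length : ℝ) + 1) ^ p)
    (hGL : ∀ w, w ∈ SW w.length → sq w = 1 → 3 ≤ w.length → 1 ≤ C₀ * G w)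
    (hrep : ∀ L : Finset (ℤ × ℤ), CF L → ∀ st fl, Fill L 0 0 st fl →
        ∀ w, Em L 0 0 w → sq w = 1 → 3 ≤ w.length →
          ∃ M : ℝ, Rp (Sl L 0 0 w) (fun U => G (fl w U)) M ∧
          ∀ U ⊆ Sl L 0 0 w, M ≤ C₀ * G (fl w U)) :
    ∀ r : ℕ, 1 ≤ r → ∃ C : ℝ, 0 < C ∧ ∀ n : ℕ, 3 ≤ n → n % 2 = 1 →
      |∑ i ∈ range (r + 1), (-1 : ℝ) ^ i * (r.choose i : ℝ) *
        Real.log ((∑ w ∈ Pool.Agent.H739K.KP (n + 2 * i), G w) / H981.mu ^ (n + 2 * i))| ≤
        C * (Real.log n / Real.sqrt n) ^ r := by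
  intro r hr
  obtain ⟨μ, K, hμ, hK, hlow, hupp, h⟩ := Pool.Agent.N929.EZ.s_gen
  have hmu := mu_eq hμ hK hlow hupp
  obtain ⟨K', hK', hKP⟩ := KP_low
  have hTp : ∀ n : ℕ, 3 ≤ n → n % 2 = 1 →
      ((Pool.Agent.H739K.KP n).card : ℝ) ≤ C₀ * ∑ w ∈ SW n, cl w * G w := by
    intro n hn ho
    rw [sum_cl, mul_sum, show ((Pool.Agent.H739K.KP n).card : ℝ) =
      ∑ w ∈ Pool.Agent.H739K.KP n, (1 : ℝ) by simp]
    refine sum_le_sum (fun w hw => ?_)
    unfold Pool.Agent.H739K.KP at hw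
    rw [mem_filter] at hw
    have hl : w.length = n := (mem_SW.1 hw.1).1
    exact hGL w (by rw [hl]; exact hw.1) hw.2 (by omega)
  have hpos : ∀ n : ℕ, 3 ≤ n → n % 2 = 1 → 0 < ∑ w ∈ SW n, cl w * G w := by
    intro n hn ho
    have h1 := hTp n hn ho
    have h2 := KP_pos hn ho
    by_contra hcon
    push Not at hcon
    nlinarith
  obtain ⟨C, hC, h1⟩ := h (fun n => 3 ≤ n ∧ n % 2 = 1) (fun w => cl w * G w) Set.univ C₀ p
    (by linarith) (fun n hn => by omega) (fun n hn => by omega)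
    (fun w hw => by
      rw [abs_of_nonneg (mul_nonneg (cl_nonneg w) (hG0 w))]
      unfold cl
      split_ifs with hs
      · rw [one_mul]
        exact hGB w hw hs
      · rw [zero_mul]
        positivity)
    (fun w => mul_nonneg (cl_nonneg w) (hG0 w))
    (fun w _ t _ => Set.mem_univ _)
    (fun L hL hLD st fl hfl w hw => by
      have hcl : ∀ U ⊆ Sl L 0 0 w, cl (fl w U) = cl w := fun U hU =>
        fl_inv hfl hLD (cl_iv Set.univ) hw hU
      by_cases hs : sq w = 1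
      · have hcw : cl w = 1 := by unfold cl; rw [if_pos hs]
        by_cases h3 : 3 ≤ w.length
        · obtain ⟨M, hM1, hM2⟩ := hrep L hL st fl hfl w hw hs h3
          refine ⟨M, hM1.congr (fun U hU => ?_), fun U hU _ => ?_⟩
          · rw [hcl U hU, hcw, one_mul]
          · rw [hcl U hU, hcw, one_mul]
            exact hM2 U hU
        · -- no slots
          have hS : Sl L 0 0 w = ∅ := by
            rw [Finset.eq_empty_iff_forall_notMem]
            intro q hq
            unfold Sl EX.DD at hq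
            rw [mem_filter] at hq
            obtain ⟨-, k, hk⟩ := hq
            unfold In at hk
            simp at hk
            omega
          refine ⟨|G w|, (Rp.const (G w)).congr (fun U hU => ?_), fun U hU _ => ?_⟩
          · rw [hS, subset_empty] at hU
            subst hU
            rw [hfl.fl_empty w hw, hcw, one_mul]
          · rw [hS, subset_empty] at hU
            subst hU
            rw [hfl.fl_empty w hw, hcw, one_mul, abs_of_nonneg (hG0 w)]
            have := hG0 w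
            nlinarith
      · have hcw : cl w = 0 := by unfold cl; rw [if_neg hs]
        refine ⟨0, Rp.zero.congr (fun U hU => ?_), fun U hU _ => ?_⟩
        · rw [hcl U hU, hcw, zero_mul]
        · rw [hcl U hU, hcw, zero_mul, mul_zero])
    (fun n hn => hpos n hn.1 hn.2)
    ⟨K' + 3 * C₀, by positivity, fun n hn => by
      have hn' : (3 : ℝ) ≤ n := by exact_mod_cast hn.1
      have hlog : (0.69 : ℝ) ≤ Real.log n := by
        have := Real.log_two_gt_d9
        have h3 : Real.log 2 ≤ Real.log n := Real.log_le_log (by norm_num) (by linarith)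
        linarith
      have hlog2 : (0.476 : ℝ) ≤ Real.log n ^ 2 := by nlinarith
      have e1 : C₀ ≤ Real.exp (3 * C₀ * Real.log n ^ 2) := by
        have h2 := Real.add_one_le_exp (3 * C₀ * Real.log n ^ 2)
        nlinarith
      have e2 := hpos n hn.1 hn.2
      calc ((SW n).card : ℝ) ≤ Real.exp (K' * Real.log n ^ 2) *
            ((Pool.Agent.H739K.KP n).card : ℝ) := hKP n hn.1 hn.2
        _ ≤ Real.exp (K' * Real.log n ^ 2) *
            (Real.exp (3 * C₀ * Real.log n ^ 2) * ∑ w ∈ SW n, cl w * G w) := by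
            have := hTp n hn.1 hn.2
            gcongr
            exact this.trans (mul_le_mul_of_nonneg_right e1 e2.le)
        _ = _ := by
            rw [← mul_assoc, ← Real.exp_add]
            ring_nf⟩ r hr
  refine ⟨C, hC, fun n hn ho => ?_⟩
  have h2 := h1 n ⟨hn, ho⟩
  simp only [sum_cl] at h2
  rw [← hmu]
  exact h2

/-- the number of closed walks -/
theorem gen_poly_one : ∀ r : ℕ, 1 ≤ r → ∃ C : ℝ, 0 < C ∧ ∀ n : ℕ, 3 ≤ n → n % 2 = 1 →
      |∑ i ∈ range (r + 1), (-1 : ℝ) ^ i * (r.choose i : ℝ) *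
        Real.log (((Pool.Agent.H739K.KP (n + 2 * i)).card : ℝ) / H981.mu ^ (n + 2 * i))| ≤
        C * (Real.log n / Real.sqrt n) ^ r := by
  intro r hr
  obtain ⟨C, hC, h⟩ := gen_poly (fun _ => 1) 1 0 le_rfl (fun _ => by norm_num)
    (fun w _ _ => by simp) (fun w _ _ _ => by simp)
    (fun L hL st fl hfl w hw hs h3 => ⟨|1|, Rp.const 1, fun U _ => by simp⟩) r hr
  refine ⟨C, hC, fun n hn ho => ?_⟩
  have := h n hn ho
  simpa using this

/-- means over polygons -/
theorem gen_poly_mean (G : List Dir → ℝ) (C₀ : ℝ) (p : ℕ) (hC₀ : 1 ≤ C₀)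
    (hG0 : ∀ w, 0 ≤ G w)
    (hGB : ∀ w, w ∈ SW w.length → sq w = 1 → G w ≤ C₀ * ((w.length : ℝ) + 1) ^ p)
    (hGL : ∀ w, w ∈ SW w.length → sq w = 1 → 3 ≤ w.length → 1 ≤ C₀ * G w)
    (hrep : ∀ L : Finset (ℤ × ℤ), CF L → ∀ st fl, Fill L 0 0 st fl →
        ∀ w, Em L 0 0 w → sq w = 1 → 3 ≤ w.length →
          ∃ M : ℝ, Rp (Sl L 0 0 w) (fun U => G (fl w U)) M ∧
          ∀ U ⊆ Sl L 0 0 w, M ≤ C₀ * G (fl w U)) :
    ∀ r : ℕ, 1 ≤ r → ∃ C : ℝ, 0 < C ∧ ∀ n : ℕ, 2 ≤ n →
      |∑ i ∈ range (r + 1), (-1 : ℝ) ^ i * (r.choose i : ℝ) *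
        Real.log ((∑ w ∈ Pool.Agent.H739K.KP (2 * (n + i) - 1), G w) /
          ((Pool.Agent.H739K.KP (2 * (n + i) - 1)).card : ℝ))| ≤
        C * (Real.log n / Real.sqrt n) ^ r := by
  intro r hr
  obtain ⟨C1, hC1, h1⟩ := gen_poly_one r hr
  obtain ⟨C2, hC2, h2⟩ := gen_poly G C₀ p hC₀ hG0 hGB hGL hrep r hr
  refine ⟨(C2 + C1) * 2 ^ r, by positivity, fun n hn => ?_⟩
  have e1 := h1 (2 * n - 1) (by omega) (by omega)
  have e2 := h2 (2 * n - 1) (by omega) (by omega)
  have hT : ∀ m : ℕ, 3 ≤ m → m % 2 = 1 → 0 < ∑ w ∈ Pool.Agent.H739K.KP m, G w := by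
    intro m hm ho
    have a1 := KP_pos hm ho
    have a2 : ((Pool.Agent.H739K.KP m).card : ℝ) ≤ C₀ * ∑ w ∈ Pool.Agent.H739K.KP m, G w := by
      rw [mul_sum, show ((Pool.Agent.H739K.KP m).card : ℝ) =
        ∑ w ∈ Pool.Agent.H739K.KP m, (1 : ℝ) by simp]
      refine sum_le_sum (fun w hw => ?_)
      unfold Pool.Agent.H739K.KP at hw
      rw [mem_filter] at hw
      have hl : w.length = m := (mem_SW.1 hw.1).1
      exact hGL w (by rw [hl]; exact hw.1) hw.2 (by omega)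
    by_contra hcon
    push Not at hcon
    nlinarith
  have h3 := two_log H981.mu_pos (r := r) (n := 2 * n - 1)
    (S := fun m => ((Pool.Agent.H739K.KP m).card : ℝ))
    (T := fun m => ∑ w ∈ Pool.Agent.H739K.KP m, G w)
    (fun i _ => KP_pos (by omega) (by omega)) (fun i _ => hT _ (by omega) (by omega)) e2 e1
  rw [← add_mul] at h3
  have e4 : ∀ i, 2 * n - 1 + 2 * i = 2 * (n + i) - 1 := fun i => by omega
  simp only [e4] at h3
  refine h3.trans ?_
  rw [mul_assoc]
  exact mul_le_mul_of_nonneg_left (rate_two hn r) (by positivity)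

end

end Pool.Agent.N929.EZ
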