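import Pool.Agent.N929.EZ.Poly2
import Pool.Agent.N929.EZ.Gen2

/-!
# Polygons: regularity to all orders, with an averaged condition
-/

set_option autoImplicit false
set_option linter.unusedVariables false

namespace Pool.Agent.N929.EZ

open Pool.Agent.H976R2 Pool.Agent.H976R2.Dir Finset Filter Topology
open Pool.Agent.N929.EX Pool.Agent.N929.EY
open Pool.Agent.H739K (KP)
open scoped Classical

noncomputable section

theorem no_slots {L : Finset (ℤ × ℤ)} {w : List Dir} (h3 : ¬ 3 ≤ w.length) : Sl L 0 0 w = ∅ := by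
  rw [Finset.eq_empty_iff_forall_notMem]
  intro q hq
  unfold Sl EX.DD at hq
  rw [mem_filter] at hq
  obtain ⟨-, k, hk⟩ := hq
  unfold In at hk
  simp at hk
  omega

/-- functionals of closed walks -/
theorem gen_poly3 (G : List Dir → ℝ) (C₀ : ℝ) (p : ℕ) (hC₀ : 1 ≤ C₀)
    (hG0 : ∀ w, 0 ≤ G w)
    (hGB : ∀ w, w ∈ SW w.length → sq w = 1 → G w ≤ C₀ * ((w.length : ℝ) + 1) ^ p)
    (hGL : ∀ n, 3 ≤ n → n % 2 = 1 → ((KP n).card : ℝ) ≤ C₀ * ∑ w ∈ KP n, G w)
    (hrep : ∀ L : Finset (ℤ × ℤ), CF L → ∀ st fl, Fill L 0 0 st fl →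
        ∃ M : List Dir → ℝ, (∀ w, 0 ≤ M w) ∧
        (∀ w, Em L 0 0 w → sq w = 1 → 3 ≤ w.length →
          Rp (Sl L 0 0 w) (fun U => G (fl w U)) (M w)) ∧
        ∀ n, 3 ≤ n → n % 2 = 1 → ∑ w ∈ KP n, M (st w) ≤ C₀ * ∑ w ∈ KP n, G w) :
    ∀ r : ℕ, 1 ≤ r → ∃ C : ℝ, 0 < C ∧ ∀ n : ℕ, 3 ≤ n → n % 2 = 1 →
      |∑ i ∈ range (r + 1), (-1 : ℝ) ^ i * (r.choose i : ℝ) *
        Real.log ((∑ w ∈ KP (n + 2 * i), G w) / H981.mu ^ (n + 2 * i))| ≤
        C * (Real.log n / Real.sqrt n) ^ r := by
  intro r hr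
  obtain ⟨μ, K, hμ, hK, hlow, hupp, h⟩ := gen2
  have hmu := mu_eq hμ hK hlow hupp
  obtain ⟨K', hK', hKP⟩ := KP_low
  have hpos : ∀ n : ℕ, 3 ≤ n → n % 2 = 1 → 0 < ∑ w ∈ SW n, cl w * G w := by
    intro n hn ho
    have h1 := hGL n hn ho
    have h2 := KP_pos hn ho
    rw [sum_cl]
    by_contra hcon
    push Not at hcon
    nlinarith
  obtain ⟨C, hC, h1⟩ := h (fun n => 3 ≤ n ∧ n % 2 = 1) (fun w => cl w * G w) Set.univ C₀ p
    (by linarith) (fun n hn => by omega) (fun n hn => by omega)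
    (fun w hw => by
      rw [abs_of_nonneg (mul_nonneg (cl_nonneg w) (hG0 w))]
      unfold cl
      split_ifs with hs
      · rw [one_mul]
        exact hGB w hw hs
      · rw [zero_mul]
        positivity)
    (fun w => mul_nonneg (cl_nonneg w) (hG0 w))
    (fun w _ t _ => Set.mem_univ _)
    (fun L hL hLD st fl hfl => by
      obtain ⟨M, hM0, hM1, hM2⟩ := hrep L hL st fl hfl
      refine ⟨fun w => if sq w = 1 then (if 3 ≤ w.length then M w else G w) else 0,
        fun w => ?_, fun w hw => ?_, fun n hn => ?_⟩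
      · dsimp only
        split_ifs
        · exact hM0 w
        · exact hG0 w
        · exact le_rfl
      · beta_reduce
        have hcl : ∀ U ⊆ Sl L 0 0 w, cl (fl w U) = cl w := fun U hU =>
          fl_inv hfl hLD (cl_iv Set.univ) hw hU
        by_cases hs : sq w = 1
        · have hcw : cl w = 1 := by unfold cl; rw [if_pos hs]
          rw [if_pos hs]
          by_cases h3 : 3 ≤ w.length
          · rw [if_pos h3]
            refine (hM1 w hw hs h3).congr (fun U hU => ?_)
            rw [hcl U hU, hcw, one_mul]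
          · rw [if_neg h3]
            have hS := no_slots (L := L) h3
            refine ((Rp.const (G w)).mono (le_of_eq (abs_of_nonneg (hG0 w)))).congr
              (fun U hU => ?_)
            rw [hS, subset_empty] at hU
            subst hU
            rw [hfl.fl_empty w hw, hcw, one_mul]
        · have hcw : cl w = 0 := by unfold cl; rw [if_neg hs]
          rw [if_neg hs]
          refine Rp.zero.congr (fun U hU => ?_)
          rw [hcl U hU, hcw, zero_mul]
      · beta_reduce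
        rw [sum_cl]
        refine le_trans (le_of_eq ?_) (hM2 n hn.1 hn.2)
        unfold KP
        rw [sum_filter]
        refine sum_congr rfl (fun w hw => ?_)
        have hl : w.length = n := (mem_SW.1 hw).1
        have hw' : w ∈ SW w.length := by rw [hl]; exact hw
        have e1 := hfl.st_em w (by omega) hw'
        have e2 := hfl.fl_st w (by omega) hw'
        have e3 : Oc L 0 0 w ⊆ Sl L 0 0 (st w) := by
          rw [hfl.st_sl w (by omega) hw']
          unfold Sl Oc
          exact OO_sub'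
        have e4 : cl w = cl (st w) := by
          have := fl_inv hfl hLD (cl_iv Set.univ) e1 e3
          rwa [e2] at this
        have e5 : sq (st w) = 1 ↔ sq w = 1 := by
          unfold cl at e4
          by_cases a1 : sq w = 1 <;> by_cases a2 : sq (st w) = 1 <;> simp [a1, a2] at e4 ⊢
        by_cases a1 : sq w = 1
        · have a2 := e5.2 a1
          rw [if_pos a2, if_pos a1]
          by_cases a3 : 3 ≤ (st w).length
          · rw [if_pos a3]
          · exfalso
            -- a short stripped walk has no slots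
            have b1 := no_slots (L := L) a3
            rw [b1, subset_empty] at e3
            have b2 := hfl.st_len w (by omega) hw'
            rw [e3, card_empty] at b2
            omega
        · have a2 : ¬ sq (st w) = 1 := fun h => a1 (e5.1 h)
          rw [if_neg a2, if_neg a1])
    (fun n hn => hpos n hn.1 hn.2)
    ⟨K' + 3 * C₀, by positivity, fun n hn => by
      have hn' : (3 : ℝ) ≤ n := by exact_mod_cast hn.1
      have hlog : (0.69 : ℝ) ≤ Real.log n := by
        have := Real.log_two_gt_d9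
        have h3 : Real.log 2 ≤ Real.log n := Real.log_le_log (by norm_num) (by linarith)
        linarith
      have hlog2 : (0.476 : ℝ) ≤ Real.log n ^ 2 := by nlinarith
      have e1 : C₀ ≤ Real.exp (3 * C₀ * Real.log n ^ 2) := by
        have h2 := Real.add_one_le_exp (3 * C₀ * Real.log n ^ 2)
        nlinarith
      have e2 := hpos n hn.1 hn.2
      calc ((SW n).card : ℝ) ≤ Real.exp (K' * Real.log n ^ 2) * ((KP n).card : ℝ) :=
            hKP n hn.1 hn.2
        _ ≤ Real.exp (K' * Real.log n ^ 2) *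
            (Real.exp (3 * C₀ * Real.log n ^ 2) * ∑ w ∈ SW n, cl w * G w) := by
            have := hGL n hn.1 hn.2
            rw [sum_cl] at e2 ⊢
            gcongr
            exact this.trans (mul_le_mul_of_nonneg_right e1 e2.le)
        _ = _ := by
            rw [← mul_assoc, ← Real.exp_add]
            ring_nf⟩ r hr
  refine ⟨C, hC, fun n hn ho => ?_⟩
  have h2 := h1 n ⟨hn, ho⟩
  simp only [sum_cl] at h2
  rw [← hmu]
  exact h2

/-- means over polygons -/
theorem gen_poly3_mean (G : List Dir → ℝ) (C₀ : ℝ) (p : ℕ) (hC₀ : 1 ≤ C₀)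
    (hG0 : ∀ w, 0 ≤ G w)
    (hGB : ∀ w, w ∈ SW w.length → sq w = 1 → G w ≤ C₀ * ((w.length : ℝ) + 1) ^ p)
    (hGL : ∀ n, 3 ≤ n → n % 2 = 1 → ((KP n).card : ℝ) ≤ C₀ * ∑ w ∈ KP n, G w)
    (hrep : ∀ L : Finset (ℤ × ℤ), CF L → ∀ st fl, Fill L 0 0 st fl →
        ∃ M : List Dir → ℝ, (∀ w, 0 ≤ M w) ∧
        (∀ w, Em L 0 0 w → sq w = 1 → 3 ≤ w.length →
          Rp (Sl L 0 0 w) (fun U => G (fl w U)) (M w)) ∧
        ∀ n, 3 ≤ n → n % 2 = 1 → ∑ w ∈ KP n, M (st w) ≤ C₀ * ∑ w ∈ KP n, G w) :
    ∀ r : ℕ, 1 ≤ r → ∃ C : ℝ, 0 < C ∧ ∀ n : ℕ, 2 ≤ n →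
      |∑ i ∈ range (r + 1), (-1 : ℝ) ^ i * (r.choose i : ℝ) *
        Real.log ((∑ w ∈ KP (2 * (n + i) - 1), G w) / ((KP (2 * (n + i) - 1)).card : ℝ))| ≤
        C * (Real.log n / Real.sqrt n) ^ r := by
  intro r hr
  obtain ⟨C1, hC1, h1⟩ := gen_poly_one r hr
  obtain ⟨C2, hC2, h2⟩ := gen_poly3 G C₀ p hC₀ hG0 hGB hGL hrep r hr
  refine ⟨(C2 + C1) * 2 ^ r, by positivity, fun n hn => ?_⟩
  have e1 := h1 (2 * n - 1) (by omega) (by omega)
  have e2 := h2 (2 * n - 1) (by omega) (by omega)
  have hT : ∀ m : ℕ, 3 ≤ m → m % 2 = 1 → 0 < ∑ w ∈ KP m, G w := by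
    intro m hm ho
    have a1 := KP_pos hm ho
    have a2 := hGL m hm ho
    by_contra hcon
    push Not at hcon
    nlinarith
  have h3 := two_log H981.mu_pos (r := r) (n := 2 * n - 1)
    (S := fun m => ((KP m).card : ℝ)) (T := fun m => ∑ w ∈ KP m, G w)
    (fun i _ => KP_pos (by omega) (by omega)) (fun i _ => hT _ (by omega) (by omega)) e2 e1
  rw [← add_mul] at h3
  have e4 : ∀ i, 2 * n - 1 + 2 * i = 2 * (n + i) - 1 := fun i => by omega
  simp only [e4] at h3
  refine h3.trans ?_
  rw [mul_assoc]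
  exact mul_le_mul_of_nonneg_left (rate_two hn r) (by positivity)

end

end Pool.Agent.N929.EZ
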