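import Pool.Agent.N929.EY.Stm

/-!
# Regularity to all orders in the number of steps (project EZ): statements
-/

set_option autoImplicit false
set_option linter.unusedVariables false

namespace Pool.Agent.N929.EZ

open Pool.Agent.H976R2 Pool.Agent.H976R2.Dir Finset
open Pool.Agent.N929.EX Pool.Agent.N929.EY
open scoped Classical

noncomputable section

/-- `w'` is obtained from the walk `w` with `n` steps by adding a bump in the unit square `q`;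
`w` is at corners of `q` exactly at the times `k, k + 1` and `w'` at the times `k, ..., k + 3` -/
structure Bp (n k : ℕ) (w : List Dir) (q : ℤ × ℤ) (w' : List Dir) : Prop where
  sw : w ∈ SW n
  sw' : w' ∈ SW (n + 2)
  at1 : At w q k 1
  at3 : At w' q k 3
  lo : ∀ t, t < k → Lip.PP w' t = Lip.PP w t
  hi : ∀ t, k + 1 < t → t ≤ n → Lip.PP w' (t + 2) = Lip.PP w t

/-- WT3: occupying and freeing one slot in a window -/
def S_WT3 : Prop :=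
  ∀ L : Finset (ℤ × ℤ), CF L → ∃ f g : List Dir → (ℤ × ℤ) → List Dir,
    (∀ (a b n : ℕ) (w : List Dir) (p : ℤ × ℤ), a ≤ b → b ≤ n → w ∈ SW n →
      p ∈ DD L 1 (a, b) w → p ∉ OO L 1 (a, b) w →
      WStep L a b n w p (f w p) ∧ (∃ k, a < k ∧ k + 1 < b ∧ Bp n k w p (f w p)) ∧
      g (f w p) p = w) ∧
    (∀ (a b n : ℕ) (w' : List Dir) (p : ℤ × ℤ), a ≤ b → b ≤ n → w' ∈ SW (n + 2) →
      p ∈ OO L 1 (a, b + 2) w' → WStep L a b n (g w' p) p w' ∧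
      (∃ k, a < k ∧ k + 1 < b ∧ Bp n k (g w' p) p w') ∧ f (g w' p) p = w')

/-- all corners of the unit square `q` are in `D` -/
def Cs (D : Set (ℤ × ℤ)) (q : ℤ × ℤ) : Prop := ∀ v, Cn q v → v ∈ D

/-- `F` does not change if a bump is added in a unit square in `D`, after the time `a` and more
than `l` steps before the end -/
def Iv (D : Set (ℤ × ℤ)) (F : List Dir → ℝ) (a l : ℕ) : Prop :=
  ∀ (n k : ℕ) (w : List Dir) (q : ℤ × ℤ) (w' : List Dir), Bp n k w q w' → a < k →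
    k + 1 + l < n → Cs D q → F w' = F w

/-- the classes of the walks with `p + (u + 2 * i) + l` steps: the value of `F`, the slots in the
window `[p, p + (u + 2 * i)]`, and the number `i` of occupied slots -/
def H1 (L : Finset (ℤ × ℤ)) (F : List Dir → ℝ) (v : ℝ) (E : Finset (ℤ × ℤ)) (p u l i : ℕ) :
    Finset (List Dir) :=
  (SW (p + (u + 2 * i) + l)).filter (fun w => F w = v ∧
    DD L 1 (p, p + (u + 2 * i)) w = E ∧ (OO L 1 (p, p + (u + 2 * i)) w).card = i)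

/-- CL1: the sizes of the classes -/
def S_CL1 : Prop :=
  ∀ (D : Set (ℤ × ℤ)) (L : Finset (ℤ × ℤ)), CF L → (∀ q ∈ L, Cs D q) →
    ∀ (F : List Dir → ℝ) (p l : ℕ), Iv D F p l → ∀ (v : ℝ) (E : Finset (ℤ × ℤ)) (u i : ℕ),
      (H1 L F v E p u l i).card = E.card.choose i * (H1 L F v E p u l 0).card

/-- MV: moving bumps into or out of the window -/
def S_MV : Prop :=
  ∀ L : Finset (ℤ × ℤ), CF L → ∀ (Q : ℕ → ℕ → Prop) (M : ℝ) (N p l s : ℕ), p + l ≤ N → 0 ≤ M →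
    ((∀ S i, Q S i → i ≤ S → (S.choose i : ℝ) ≤ M * (S.choose (i + s) : ℝ)) →
      (((SW N).filter (fun w => Q (DD L 1 (p, N - l) w).card
        (OO L 1 (p, N - l) w).card)).card : ℝ) ≤ M * ((SW (N + 2 * s)).card : ℝ)) ∧
    ((∀ S i, Q S i → i ≤ S → s ≤ i ∧ (S.choose i : ℝ) ≤ M * (S.choose (i - s) : ℝ)) →
      (((SW N).filter (fun w => Q (DD L 1 (p, N - l) w).card
        (OO L 1 (p, N - l) w).card)).card : ℝ) ≤ M * ((SW (N - 2 * s)).card : ℝ))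

/-- RAT: binomial coefficients away from the balance point -/
def S_RAT : Prop :=
  ∀ (m ε : ℝ) (S j i s : ℕ), 1 ≤ m → 0 < ε → ε ≤ 1 → i ≤ j → j ≤ S →
    12 * ((i : ℝ) + s) ≤ ε * ((j : ℝ) - i + 1) →
    ((1 + ε) * m < ((S : ℝ) - ((j : ℝ) - i)) / ((j : ℝ) - i + 1) →
      (S.choose j : ℝ) * (m * (1 + ε / 2)) ^ s ≤ (S.choose (j + s) : ℝ)) ∧
    (((S : ℝ) - ((j : ℝ) - i)) / ((j : ℝ) - i + 1) < (1 - ε) * m →
      s ≤ j ∧ (S.choose j : ℝ) ≤ (m * (1 - ε / 2)) ^ s * (S.choose (j - s) : ℝ))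

/-- DIF: iterated differences of binomial coefficients near the balance point -/
def S_DIF : Prop :=
  ∀ r : ℕ, ∃ C : ℝ, 0 < C ∧ ∀ (S k : ℕ) (m ε : ℝ), 1 ≤ m → 0 < ε → ε ≤ 1 → k ≤ S →
    1 ≤ ε ^ 2 * (k : ℝ) → |((S : ℝ) - k) / ((k : ℝ) + 1) - m| ≤ ε * m →
    |∑ i ∈ range (r + 1), (-1 : ℝ) ^ i * (r.choose i : ℝ) * ((S.choose (k + i) : ℝ) / m ^ i)| ≤
      C * ε ^ r * (S.choose k : ℝ)

/-- SEL3: a finite set of families without common corners such that every set of squares is hit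
well by all but an exponentially small proportion of them -/
def S_SEL3 : Prop :=
  ∀ N : ℕ, ∃ (ι : Type) (_ : Fintype ι) (_ : Nonempty ι) (Λ : ι → Finset (ℤ × ℤ)),
    (∀ i, CF (Λ i)) ∧
    ∀ P : Finset (ℤ × ℤ), (∀ p ∈ P, |p.1| ≤ N ∧ |p.2| ≤ N) →
      ((univ.filter (fun i => 100000 * (Λ i ∩ P).card < P.card)).card : ℝ) ≤
        Real.exp (-((P.card : ℝ) / 100000)) * Fintype.card ι

/-- many free and many occupied slots in the window -/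
def G3 (L : Finset (ℤ × ℤ)) (a b : ℕ) (w : List Dir) : Prop :=
  (b - a) / 4000000000 ≤ (OO L 1 (a, b) w).card ∧
    (OO L 1 (a, b) w).card + (b - a) / 4000000000 ≤ (DD L 1 (a, b) w).card

/-- FAM3: one family in `D` which is good in all long windows for all but exponentially few walks
in `D` -/
def S_FAM3 : Prop :=
  ∃ c C : ℝ, 0 < c ∧ 0 < C ∧ ∀ n : ℕ, 2 ≤ n → ∀ D : Set (ℤ × ℤ),
    ∃ L : Finset (ℤ × ℤ), CF L ∧ (∀ q ∈ L, Cs D q) ∧
    ∀ N a b : ℕ, N ≤ 2 * n → a ≤ b → b ≤ N → n ≤ 8 * (b - a) →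
      (((SW N).filter (fun w => (∀ t, t ≤ N → Lip.PP w t ∈ D) ∧ ¬ G3 L a b w)).card : ℝ) ≤
        C * Real.exp (-(c * n)) * ((SW N).card : ℝ)

/-- the iterated difference -/
def Df (r : ℕ) (f : ℕ → ℝ) (n : ℕ) : ℝ :=
  ∑ i ∈ range (r + 1), (-1 : ℝ) ^ i * (r.choose i : ℝ) * f (n + i)

/-- QUO: differences of quotients -/
def S_QUO : Prop :=
  ∀ r : ℕ, ∀ B : ℝ, 0 < B → ∃ C : ℝ, 0 < C ∧ ∀ (f g : ℕ → ℝ) (n : ℕ) (α ε : ℝ), 0 < ε → ε ≤ 1 →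
    0 ≤ α → (∀ j, j ≤ r → 0 < g (n + j)) → (∀ j, j ≤ r → g n ≤ B * g (n + j)) →
    (∀ s, s ≤ r → |Df s f n| ≤ B * ε ^ s * α) →
    (∀ s j, s + j ≤ r → |Df s g (n + j)| ≤ B * ε ^ s * g n) →
    |Df r (fun j => f j / g j) n| ≤ C * ε ^ r * (α / g n)

/-- AO: regularity to all orders -/
def S_AO : Prop :=
  ∃ μ K : ℝ, 2.43 ≤ μ ∧ 0 ≤ K ∧ (∀ n : ℕ, μ ^ n ≤ ((SW n).card : ℝ)) ∧
    (∀ m n : ℕ, 2 ≤ n → m ≤ n →
      ((SW m).card : ℝ) ≤ 4 * (μ ^ m * Real.exp (K * Real.log n ^ 2))) ∧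
    ∀ r : ℕ, ∃ A C : ℝ, 0 < A ∧ 0 < C ∧ ∀ (n a l : ℕ) (ε : ℝ), 2 ≤ n → 2 * (a + l) ≤ n →
      0 < ε → ε ≤ 1 → A * Real.log n ^ 2 ≤ ε ^ 2 * n →
      ∀ (D : Set (ℤ × ℤ)) (F : List Dir → ℝ), (∀ w, 0 ≤ F w ∧ F w ≤ 1) →
        (∀ w, F w ≠ 0 → ∀ t, t ≤ w.length → Lip.PP w t ∈ D) → Iv D F a l →
        |∑ i ∈ range (r + 1), (-1 : ℝ) ^ i * (r.choose i : ℝ) *
          ((∑ w ∈ SW (n + 2 * i), F w) / μ ^ (2 * i))| ≤
          C * (ε ^ r * (∑ w ∈ SW n, F w) + Real.exp (-(ε ^ 2 * n / A)) * ((SW n).card : ℝ))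

end

end Pool.Agent.N929.EZ
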