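import Pool.Agent.N929.EZ.Stm2
import Pool.Agent.H739K.Defs

/-!
# Functionals of the filled walks: statements
-/

set_option autoImplicit false
set_option linter.unusedVariables false

namespace Pool.Agent.N929.EZ

open Pool.Agent.H976R2 Pool.Agent.H976R2.Dir Finset
open Pool.Agent.N929.EX Pool.Agent.N929.EY
open scoped Classical

noncomputable section

/-- BPI: a bump in a square is an insertion -/
def S_BPI : Prop :=
  ∀ (n k : ℕ) (w : List Dir) (q : ℤ × ℤ) (w' : List Dir), Bp n k w q w' → 0 < k → k + 1 < n →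
    ∃ e : Dir, (k, e) ∈ adm w ∧ w' = ins w k e ∧
      q = (min (Lip.PP w k).1 ((Lip.PP w k).1 + dx e + dx (lt w k)),
        min (Lip.PP w k).2 ((Lip.PP w k).2 + dy e + dy (lt w k)))

/-- SS: sums over the sites of a walk after filling slots -/
def S_SS : Prop :=
  ∀ (L : Finset (ℤ × ℤ)), CF L → ∀ (a l : ℕ) (st : List Dir → List Dir)
    (fl : List Dir → Finset (ℤ × ℤ) → List Dir), Fill L a l st fl → ∀ w, Em L a l w →
    ∀ U ⊆ Sl L a l w, ∀ φ : ℤ × ℤ → ℝ,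
      ∑ t ∈ range ((fl w U).length + 1), φ (Lip.PP (fl w U) t) =
        ∑ t ∈ range (w.length + 1), φ (Lip.PP w t) +
        ∑ q ∈ U, ∑ v ∈ ({q, (q.1 + 1, q.2), (q.1, q.2 + 1), (q.1 + 1, q.2 + 1)} :
          Finset (ℤ × ℤ)).filter (fun v => ∀ t, t ≤ w.length → Lip.PP w t ≠ v), φ v

/-- the largest first coordinate -/
def mxx (w : List Dir) : ℤ :=
  (range (w.length + 1)).sup' ⟨0, by simp⟩ (fun t => (Lip.PP w t).1)

/-- the smallest first coordinate -/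
def mnx (w : List Dir) : ℤ :=
  (range (w.length + 1)).inf' ⟨0, by simp⟩ (fun t => (Lip.PP w t).1)

/-- the largest second coordinate -/
def mxy (w : List Dir) : ℤ :=
  (range (w.length + 1)).sup' ⟨0, by simp⟩ (fun t => (Lip.PP w t).2)

/-- the smallest second coordinate -/
def mny (w : List Dir) : ℤ :=
  (range (w.length + 1)).inf' ⟨0, by simp⟩ (fun t => (Lip.PP w t).2)

/-- XT: the extent of a walk after filling slots, its last point -/
def S_XT : Prop :=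
  ∀ (L : Finset (ℤ × ℤ)), CF L → ∀ (a l : ℕ) (st : List Dir → List Dir)
    (fl : List Dir → Finset (ℤ × ℤ) → List Dir), Fill L a l st fl → ∀ w, Em L a l w →
    ∀ U ⊆ Sl L a l w,
      mxx (fl w U) = mxx w + (if ∃ q ∈ U, q.1 = mxx w then 1 else 0) ∧
      mnx (fl w U) = mnx w - (if ∃ q ∈ U, q.1 + 1 = mnx w then 1 else 0) ∧
      mxy (fl w U) = mxy w + (if ∃ q ∈ U, q.2 = mxy w then 1 else 0) ∧
      mny (fl w U) = mny w - (if ∃ q ∈ U, q.2 + 1 = mny w then 1 else 0) ∧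
      Lip.PP (fl w U) (fl w U).length = Lip.PP w w.length

/-- AR: the area enclosed by a closed walk after filling slots -/
def S_AR : Prop :=
  ∀ (L : Finset (ℤ × ℤ)), CF L → ∀ (a l : ℕ) (st : List Dir → List Dir)
    (fl : List Dir → Finset (ℤ × ℤ) → List Dir), Fill L a l st fl → ∀ w, Em L a l w →
    3 ≤ w.length → sq w = 1 → ∀ U ⊆ Sl L a l w,
      (Pool.Agent.H739K.ar (fl w U) : ℝ) = (Pool.Agent.H739K.ar w : ℝ) +
        ∑ q ∈ U, (if Pool.Agent.H924P.Encl (w.length + 1)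
          (Pool.Agent.H739K.lp (w.length + 1) w) q then (-1 : ℝ) else 1)

/-- GEN: regularity to all orders of the logarithms of sums of functionals -/
def S_GEN : Prop :=
  ∃ μ K : ℝ, 2.43 ≤ μ ∧ 0 ≤ K ∧ (∀ n : ℕ, μ ^ n ≤ ((SW n).card : ℝ)) ∧
    (∀ m n : ℕ, 2 ≤ n → m ≤ n →
      ((SW m).card : ℝ) ≤ 4 * (μ ^ m * Real.exp (K * Real.log n ^ 2))) ∧
    ∀ (P : ℕ → Prop) (F : List Dir → ℝ) (D : Set (ℤ × ℤ)) (C₀ : ℝ) (p : ℕ), 0 ≤ C₀ →
      (∀ n, P n → 2 ≤ n) → (∀ n, P n → P (n + 2)) →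
      (∀ w, w ∈ SW w.length → |F w| ≤ C₀ * ((w.length : ℝ) + 1) ^ p) →
      (∀ w, 0 ≤ F w) →
      (∀ w, F w ≠ 0 → ∀ t, t ≤ w.length → Lip.PP w t ∈ D) →
      (∀ L : Finset (ℤ × ℤ), CF L → (∀ q ∈ L, Cs D q) → ∀ st fl, Fill L 0 0 st fl →
        ∀ w, Em L 0 0 w → ∃ M : ℝ, Rp (Sl L 0 0 w) (fun U => F (fl w U)) M ∧
          ∀ U ⊆ Sl L 0 0 w, 2 ≤ (fl w U).length → M ≤ C₀ * F (fl w U)) →
      (∀ n, P n → 0 < ∑ w ∈ SW n, F w) →
      (∃ K' : ℝ, 0 ≤ K' ∧ ∀ n, P n →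
        ((SW n).card : ℝ) ≤ Real.exp (K' * Real.log n ^ 2) * ∑ w ∈ SW n, F w) →
      ∀ r : ℕ, 1 ≤ r → ∃ C : ℝ, 0 < C ∧ ∀ n : ℕ, P n →
        |∑ i ∈ range (r + 1), (-1 : ℝ) ^ i * (r.choose i : ℝ) *
          Real.log ((∑ w ∈ SW (n + 2 * i), F w) / μ ^ (n + 2 * i))| ≤
          C * (Real.log n / Real.sqrt n) ^ r

end

end Pool.Agent.N929.EZ
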