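import Pool.Agent.N929.EZ.Good

/-!
# The unbalanced walks are rare
-/

set_option autoImplicit false
set_option linter.unusedVariables false

namespace Pool.Agent.N929.EZ

open Pool.Agent.H976R2 Pool.Agent.H976R2.Dir Finset
open Pool.Agent.N929.EX Pool.Agent.N929.EY
open scoped Classical

noncomputable section

theorem exp_lo {x : ℝ} (h0 : 0 ≤ x) (h1 : x ≤ 1) : Real.exp (x / 2) ≤ 1 + x := by
  have := Real.exp_bound_div_one_sub_of_interval (x := x / 2) (by linarith) (by linarith)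
  refine this.trans ?_
  rw [div_le_iff₀ (by linarith)]
  nlinarith

/-- a real computation: the number `s` of the moved bumps -/
theorem pow1 {ε : ℝ} (h0 : 0 < ε) (h1 : ε ≤ 1) (s : ℕ) :
    1 / (1 + ε / 2) ^ s ≤ Real.exp (-(ε * s / 4)) := by
  rw [Real.exp_neg, ← one_div]
  apply one_div_le_one_div_of_le (Real.exp_pos _)
  have := exp_lo (x := ε / 2) (by linarith) (by linarith)
  calc Real.exp (ε * s / 4) = Real.exp (ε / 2 / 2) ^ s := by
        rw [← Real.exp_nat_mul]; ring_nf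
    _ ≤ (1 + ε / 2) ^ s := pow_le_pow_left₀ (Real.exp_pos _).le this s

theorem pow2 {ε : ℝ} (h0 : 0 < ε) (h1 : ε ≤ 1) (s : ℕ) :
    (1 - ε / 2) ^ s ≤ Real.exp (-(ε * s / 4)) := by
  have : 1 - ε / 2 ≤ Real.exp (-(ε / 2)) := by
    have := Real.add_one_le_exp (-(ε / 2))
    linarith
  calc (1 - ε / 2) ^ s ≤ Real.exp (-(ε / 2)) ^ s := pow_le_pow_left₀ (by linarith) this s
    _ = Real.exp (-(ε * s / 2)) := by rw [← Real.exp_nat_mul]; ring_nf
    _ ≤ Real.exp (-(ε * s / 4)) := by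
        apply Real.exp_le_exp.mpr
        have : 0 ≤ ε * s := by positivity
        linarith

/-- the two conditions -/
def QA (m ε : ℝ) (i : ℕ) (x : ℝ) (S j : ℕ) : Prop :=
  i ≤ j ∧ x ≤ (j : ℝ) - i + 1 ∧ (1 + ε) * m < ((S : ℝ) - ((j : ℝ) - i)) / ((j : ℝ) - i + 1)

def QB (m ε : ℝ) (i : ℕ) (x : ℝ) (S j : ℕ) : Prop :=
  i ≤ j ∧ x ≤ (j : ℝ) - i + 1 ∧ ((S : ℝ) - ((j : ℝ) - i)) / ((j : ℝ) - i + 1) < (1 - ε) * m

/-- walks with too few occupied slots -/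
theorem unbA (hmv : S_MV) (hrat : S_RAT) {μ B : ℝ} (hμ : 1 ≤ μ) {n i s : ℕ} {ε : ℝ}
    (hup : ∀ m, m ≤ 2 * n → ((SW m).card : ℝ) ≤ B * μ ^ m) (hB : 0 ≤ B)
    (hε : 0 < ε) (hε1 : ε ≤ 1) {L : Finset (ℤ × ℤ)} (hL : CF L) {a l : ℕ} (hal : a + l ≤ n)
    (hs : n + 2 * i + 2 * s ≤ 2 * n) {x : ℝ} (hx : 12 * ((i : ℝ) + s) ≤ ε * x) :
    (((SW (n + 2 * i)).filter (fun w => QA (μ ^ 2) ε i x (DD L 1 (a, n + 2 * i - l) w).card
      (OO L 1 (a, n + 2 * i - l) w).card)).card : ℝ) ≤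
      B * Real.exp (-(ε * s / 4)) * μ ^ (n + 2 * i) := by
  have hμ2 : 1 ≤ μ ^ 2 := one_le_pow₀ hμ
  have hM : (0 : ℝ) ≤ 1 / (μ ^ 2 * (1 + ε / 2)) ^ s := by positivity
  have h1 := (hmv L hL (QA (μ ^ 2) ε i x) (1 / (μ ^ 2 * (1 + ε / 2)) ^ s) (n + 2 * i) a l s
    (by omega) hM).1 (fun S j hQ hj => by
      obtain ⟨q1, q2, q3⟩ := hQ
      have := (hrat (μ ^ 2) ε S j i s hμ2 hε hε1 q1 hj
        (hx.trans (mul_le_mul_of_nonneg_left q2 hε.le))).1 q3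
      rw [one_div, inv_mul_eq_div, le_div_iff₀ (by positivity)]
      exact this)
  refine h1.trans ?_
  have h2 := hup (n + 2 * i + 2 * s) hs
  calc 1 / (μ ^ 2 * (1 + ε / 2)) ^ s * ((SW (n + 2 * i + 2 * s)).card : ℝ)
      ≤ 1 / (μ ^ 2 * (1 + ε / 2)) ^ s * (B * μ ^ (n + 2 * i + 2 * s)) :=
        mul_le_mul_of_nonneg_left h2 hM
    _ = B * (1 / (1 + ε / 2) ^ s) * μ ^ (n + 2 * i) := by
        rw [mul_pow, pow_add μ (n + 2 * i), pow_mul μ 2 s]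
        field_simp
    _ ≤ B * Real.exp (-(ε * s / 4)) * μ ^ (n + 2 * i) := by
        have := pow1 hε hε1 s
        gcongr

/-- walks with too many occupied slots -/
theorem unbB (hmv : S_MV) (hrat : S_RAT) {μ B : ℝ} (hμ : 1 ≤ μ) {n i s : ℕ} {ε : ℝ}
    (hup : ∀ m, m ≤ 2 * n → ((SW m).card : ℝ) ≤ B * μ ^ m) (hB : 0 ≤ B)
    (hε : 0 < ε) (hε1 : ε ≤ 1) {L : Finset (ℤ × ℤ)} (hL : CF L) {a l : ℕ} (hal : a + l ≤ n)
    (hs : n + 2 * i + 2 * s ≤ 2 * n) {x : ℝ} (hx : 12 * ((i : ℝ) + s) ≤ ε * x) :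
    (((SW (n + 2 * i)).filter (fun w => QB (μ ^ 2) ε i x (DD L 1 (a, n + 2 * i - l) w).card
      (OO L 1 (a, n + 2 * i - l) w).card)).card : ℝ) ≤
      B * Real.exp (-(ε * s / 4)) * μ ^ (n + 2 * i) := by
  have hμ2 : 1 ≤ μ ^ 2 := one_le_pow₀ hμ
  have hM : (0 : ℝ) ≤ (μ ^ 2 * (1 - ε / 2)) ^ s := by
    have : 0 ≤ 1 - ε / 2 := by linarith
    positivity
  have h1 := (hmv L hL (QB (μ ^ 2) ε i x) ((μ ^ 2 * (1 - ε / 2)) ^ s) (n + 2 * i) a l s
    (by omega) hM).2 (fun S j hQ hj => by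
      obtain ⟨q1, q2, q3⟩ := hQ
      exact (hrat (μ ^ 2) ε S j i s hμ2 hε hε1 q1 hj
        (hx.trans (mul_le_mul_of_nonneg_left q2 hε.le))).2 q3)
  refine h1.trans ?_
  have h2 := hup (n + 2 * i - 2 * s) (by omega)
  have e0 : n + 2 * i - 2 * s + 2 * s = n + 2 * i := by omega
  calc (μ ^ 2 * (1 - ε / 2)) ^ s * ((SW (n + 2 * i - 2 * s)).card : ℝ)
      ≤ (μ ^ 2 * (1 - ε / 2)) ^ s * (B * μ ^ (n + 2 * i - 2 * s)) :=
        mul_le_mul_of_nonneg_left h2 hM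
    _ = B * (1 - ε / 2) ^ s * μ ^ (n + 2 * i) := by
        rw [← e0, mul_pow, pow_add μ (n + 2 * i - 2 * s), pow_mul μ 2 s, e0]
        ring
    _ ≤ B * Real.exp (-(ε * s / 4)) * μ ^ (n + 2 * i) := by
        have := pow2 hε hε1 s
        gcongr

set_option maxHeartbeats 4000000 in
/-- the unbalanced walks -/
theorem unb (hmv : S_MV) (hrat : S_RAT) {c C₀ μ K : ℝ} (hc : 0 < c) (hC₀ : 0 < C₀)
    (hμ : 1 ≤ μ) (hK : 0 ≤ K) (hlow : ∀ n : ℕ, μ ^ n ≤ ((SW n).card : ℝ))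
    (hupp : ∀ m n : ℕ, 2 ≤ n → m ≤ n →
      ((SW m).card : ℝ) ≤ 4 * (μ ^ m * Real.exp (K * Real.log n ^ 2))) (r : ℕ) :
    ∃ A C : ℝ, 0 < A ∧ 0 < C ∧ ∀ (n a l i : ℕ) (ε : ℝ), 2 ≤ n → 2 * (a + l) ≤ n → i ≤ r →
      0 < ε → ε ≤ 1 → A * Real.log n ^ 2 ≤ ε ^ 2 * n → ∀ (D : Set (ℤ × ℤ)) (L : Finset (ℤ × ℤ)),
      CF L → (∀ N a b : ℕ, N ≤ 2 * n → a ≤ b → b ≤ N → n ≤ 8 * (b - a) →
      (((SW N).filter (fun w => (∀ t, t ≤ N → Lip.PP w t ∈ D) ∧ ¬ G3 L a b w)).card : ℝ) ≤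
        C₀ * Real.exp (-(c * n)) * ((SW N).card : ℝ)) →
      (((SW (n + 2 * i)).filter (fun w => (∀ t, t ≤ n + 2 * i → Lip.PP w t ∈ D) ∧
        ¬ Bal (μ ^ 2) ε i (DD L 1 (a, n + 2 * i - l) w).card
          (OO L 1 (a, n + 2 * i - l) w).card)).card : ℝ) ≤
        C * Real.exp (-(ε ^ 2 * n / A)) * ((SW n).card : ℝ) * μ ^ (2 * i) := by
  obtain ⟨d, hd⟩ : ∃ d : ℝ, d = min c (1 / (8 * 10 ^ 12)) := ⟨_, rfl⟩
  have hd0 : 0 < d := by rw [hd]; positivity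
  have hdc : d ≤ c := by rw [hd]; exact min_le_left _ _
  have hd1 : d ≤ 1 / (8 * 10 ^ 12) := by rw [hd]; exact min_le_right _ _
  refine ⟨10 ^ 14 * (r + 1) + 8 * K / d + 2 / d, 4 * C₀ + 8, by positivity, by positivity, ?_⟩
  intro n a l i ε hn hal hir hε hε1 hA D L hL hfam
  obtain ⟨A, hAA⟩ : ∃ A : ℝ, A = 10 ^ 14 * (r + 1) + 8 * K / d + 2 / d := ⟨_, rfl⟩
  rw [← hAA] at hA ⊢
  have hn' : (2 : ℝ) ≤ n := by exact_mod_cast hn
  have hr0 : (0 : ℝ) ≤ r := Nat.cast_nonneg r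
  have hA1 : 10 ^ 14 * ((r : ℝ) + 1) ≤ A := by
    rw [hAA]
    have : 0 ≤ 8 * K / d := by positivity
    have : 0 ≤ 2 / d := by positivity
    linarith
  have hA2 : 8 * K / d ≤ A := by
    rw [hAA]
    have : 0 ≤ 10 ^ 14 * ((r : ℝ) + 1) := by positivity
    have : 0 ≤ 2 / d := by positivity
    linarith
  have hA3 : 2 / d ≤ A := by
    rw [hAA]
    have : 0 ≤ 10 ^ 14 * ((r : ℝ) + 1) := by positivity
    have : 0 ≤ 8 * K / d := by positivity
    linarith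
  have hA0 : 0 < A := by linarith
  have hlog : (0.69 : ℝ) ≤ Real.log n := by
    have := Real.log_two_gt_d9
    have h3 : Real.log 2 ≤ Real.log n := Real.log_le_log (by norm_num) hn'
    linarith
  have hlog2 : (0.476 : ℝ) ≤ Real.log n ^ 2 := by nlinarith
  have hAn : 0.476 * A ≤ ε ^ 2 * n := by nlinarith
  have he2 : ε ^ 2 * n ≤ ε * n := by nlinarith
  have he1 : ε * n ≤ n := by nlinarith
  have hbig : 4 * 10 ^ 13 * ((r : ℝ) + 1) ≤ ε ^ 2 * n := by linarith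
  have hir' : (i : ℝ) ≤ r := by exact_mod_cast hir
  have hi0 : (0 : ℝ) ≤ i := Nat.cast_nonneg i
  -- the number of moved bumps
  obtain ⟨s, hs⟩ : ∃ s : ℕ, s = ⌊ε * n / 10 ^ 12⌋₊ := ⟨_, rfl⟩
  have hs1 : (s : ℝ) ≤ ε * n / 10 ^ 12 := by rw [hs]; exact Nat.floor_le (by positivity)
  have hs2 : ε * n / 10 ^ 12 < s + 1 := by rw [hs]; exact Nat.lt_floor_add_one _
  have hsn : n + 2 * i + 2 * s ≤ 2 * n := by
    have h1 : (i : ℝ) ≤ n / 10 ^ 12 := by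
      rw [le_div_iff₀ (by norm_num)]
      linarith
    have h2 : (s : ℝ) ≤ n / 10 ^ 12 := hs1.trans (by gcongr)
    have : (n : ℝ) + 2 * i + 2 * s ≤ 2 * n := by linarith
    exact_mod_cast this
  -- bounds for the numbers of walks
  obtain ⟨B, hB⟩ : ∃ B : ℝ, B = 4 * Real.exp (K * (4 * Real.log n ^ 2)) := ⟨_, rfl⟩
  have hB0 : 0 ≤ B := by rw [hB]; positivity
  have hup : ∀ m, m ≤ 2 * n → ((SW m).card : ℝ) ≤ B * μ ^ m := by
    intro m hm
    refine (hupp m (2 * n) (by omega) hm).trans ?_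
    have h1 : Real.log ((2 * n : ℕ) : ℝ) ≤ 2 * Real.log n := by
      push_cast
      rw [Real.log_mul (by norm_num) (by positivity)]
      have : Real.log 2 ≤ Real.log n := Real.log_le_log (by norm_num) hn'
      linarith
    have h0 : 0 ≤ Real.log ((2 * n : ℕ) : ℝ) := by
      apply Real.log_nonneg
      push_cast
      linarith
    have h2 : K * Real.log ((2 * n : ℕ) : ℝ) ^ 2 ≤ K * (4 * Real.log n ^ 2) := by
      apply mul_le_mul_of_nonneg_left _ hK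
      nlinarith
    have h3 := Real.exp_le_exp.mpr h2
    rw [hB]
    calc 4 * (μ ^ m * Real.exp (K * Real.log ((2 * n : ℕ) : ℝ) ^ 2))
        ≤ 4 * (μ ^ m * Real.exp (K * (4 * Real.log n ^ 2))) := by gcongr
      _ = _ := by ring
  -- the lower bound for the number of occupied slots
  obtain ⟨x, hx⟩ : ∃ x : ℝ, x = (n : ℝ) / 10 ^ 10 := ⟨_, rfl⟩
  have hix : 12 * ((i : ℝ) + s) ≤ ε * x := by
    rw [hx]
    have h1 : 12 * (s : ℝ) ≤ 12 * (ε * n / 10 ^ 12) := by linarith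
    have h2 : 12 * (i : ℝ) ≤ 12 * (ε * n / 10 ^ 12) := by linarith
    have h3 : ε * (n / 10 ^ 10) = 100 * (ε * n / 10 ^ 12) := by ring
    have h4 : 0 ≤ ε * n / 10 ^ 12 := by positivity
    rw [h3]
    linarith
  have uA := unbA hmv hrat hμ (i := i) (s := s) hup hB0 hε hε1 hL (a := a) (l := l) (by omega) hsn
    hix
  have uB := unbB hmv hrat hμ (i := i) (s := s) hup hB0 hε hε1 hL (a := a) (l := l) (by omega) hsn
    hix
  have uF := hfam (n + 2 * i) a (n + 2 * i - l) (by omega) (by omega) (by omega) (by omega)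
  -- the three parts
  have hsub : (SW (n + 2 * i)).filter (fun w => (∀ t, t ≤ n + 2 * i → Lip.PP w t ∈ D) ∧
        ¬ Bal (μ ^ 2) ε i (DD L 1 (a, n + 2 * i - l) w).card
          (OO L 1 (a, n + 2 * i - l) w).card) ⊆
      (SW (n + 2 * i)).filter (fun w => (∀ t, t ≤ n + 2 * i → Lip.PP w t ∈ D) ∧
        ¬ G3 L a (n + 2 * i - l) w) ∪
      ((SW (n + 2 * i)).filter (fun w => QA (μ ^ 2) ε i x (DD L 1 (a, n + 2 * i - l) w).card
        (OO L 1 (a, n + 2 * i - l) w).card) ∪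
      (SW (n + 2 * i)).filter (fun w => QB (μ ^ 2) ε i x (DD L 1 (a, n + 2 * i - l) w).card
        (OO L 1 (a, n + 2 * i - l) w).card)) := by
    intro w hw
    rw [mem_filter] at hw
    rw [mem_union, mem_union, mem_filter, mem_filter, mem_filter]
    obtain ⟨h1, h2, h3⟩ := hw
    by_cases hg : G3 L a (n + 2 * i - l) w
    · right
      have hSj := card_le_card (OO_sub' (L := L) (s := 1) (T := (a, n + 2 * i - l)) (w := w))
      obtain ⟨j, hj⟩ : ∃ j, j = (OO L 1 (a, n + 2 * i - l) w).card := ⟨_, rfl⟩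
      obtain ⟨S, hS⟩ : ∃ S, S = (DD L 1 (a, n + 2 * i - l) w).card := ⟨_, rfl⟩
      unfold G3 at hg
      rw [← hj, ← hS] at hg
      rw [← hj, ← hS] at hSj h3 ⊢
      have g1 : n < 8000000000 * (j + 1) := by
        have := hg.1
        omega
      have g2 : (n : ℝ) < 8000000000 * ((j : ℝ) + 1) := by exact_mod_cast g1
      have g3 : (n : ℝ) / 10 ^ 10 ≤ (j : ℝ) - i := by
        rw [div_le_iff₀ (by norm_num)]
        linarith
      have g4 : (i : ℝ) ≤ j := by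
        have : 0 ≤ (n : ℝ) / 10 ^ 10 := by positivity
        linarith
      have g5 : i ≤ j := by exact_mod_cast g4
      have g6 : x ≤ (j : ℝ) - i + 1 := by rw [hx]; linarith
      have g7 : 1 ≤ ε ^ 2 * (((j - i : ℕ) : ℝ)) := by
        rw [Nat.cast_sub g5]
        have : ε ^ 2 * ((n : ℝ) / 10 ^ 10) ≤ ε ^ 2 * ((j : ℝ) - i) :=
          mul_le_mul_of_nonneg_left g3 (by positivity)
        refine le_trans ?_ this
        have h5 : ε ^ 2 * ((n : ℝ) / 10 ^ 10) = ε ^ 2 * n / 10 ^ 10 := by ring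
        rw [h5, le_div_iff₀ (by norm_num)]
        linarith
      have g8 : ¬ |((S : ℝ) - ((j - i : ℕ) : ℝ)) / (((j - i : ℕ) : ℝ) + 1) - μ ^ 2| ≤ ε * μ ^ 2 :=
        fun h => h3 ⟨g5, by omega, g7, h⟩
      rw [Nat.cast_sub g5, abs_le, not_and_or, not_le, not_le] at g8
      rcases g8 with g8 | g8
      · right
        exact ⟨h1, g5, g6, by linarith⟩
      · left
        exact ⟨h1, g5, g6, by linarith⟩
    · left
      exact ⟨h1, h2, hg⟩
  have hcard := (card_le_card hsub).trans ((card_union_le _ _).trans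
    (Nat.add_le_add_left (card_union_le _ _) _))
  have hcard' : (((SW (n + 2 * i)).filter (fun w => (∀ t, t ≤ n + 2 * i → Lip.PP w t ∈ D) ∧
        ¬ Bal (μ ^ 2) ε i (DD L 1 (a, n + 2 * i - l) w).card
          (OO L 1 (a, n + 2 * i - l) w).card)).card : ℝ) ≤
      (((SW (n + 2 * i)).filter (fun w => (∀ t, t ≤ n + 2 * i → Lip.PP w t ∈ D) ∧
        ¬ G3 L a (n + 2 * i - l) w)).card : ℝ) +
      ((((SW (n + 2 * i)).filter (fun w => QA (μ ^ 2) ε i x (DD L 1 (a, n + 2 * i - l) w).card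
        (OO L 1 (a, n + 2 * i - l) w).card)).card : ℝ) +
      (((SW (n + 2 * i)).filter (fun w => QB (μ ^ 2) ε i x (DD L 1 (a, n + 2 * i - l) w).card
        (OO L 1 (a, n + 2 * i - l) w).card)).card : ℝ)) := by exact_mod_cast hcard
  refine hcard'.trans ?_
  have hcn : 0 ≤ μ ^ n := by positivity
  obtain ⟨E, hE⟩ : ∃ E : ℝ, E = Real.exp (-(ε ^ 2 * n / A)) := ⟨_, rfl⟩
  have hdn : 0 ≤ d * (ε ^ 2 * n) := by positivity
  -- exponents
  have hK4 : K * (4 * Real.log n ^ 2) ≤ d * (ε ^ 2 * n) / 2 := by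
    have h1 : 8 * K / d * Real.log n ^ 2 ≤ ε ^ 2 * n :=
      (mul_le_mul_of_nonneg_right hA2 (by positivity)).trans hA
    have h2 : 8 * K / d * Real.log n ^ 2 = 2 * (K * (4 * Real.log n ^ 2)) / d := by ring
    rw [h2, div_le_iff₀ hd0] at h1
    linarith
  have hEA : ε ^ 2 * n / A ≤ d * (ε ^ 2 * n) / 2 := by
    rw [div_le_iff₀ hA0]
    have h1 : 2 ≤ A * d := by rwa [div_le_iff₀ hd0] at hA3
    have h2 : 0 ≤ ε ^ 2 * n := by positivity
    nlinarith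
  have x1 : Real.exp (K * (4 * Real.log n ^ 2)) * Real.exp (-(c * n)) ≤ E := by
    rw [hE, ← Real.exp_add]
    apply Real.exp_le_exp.mpr
    have : d * (ε ^ 2 * n) ≤ c * n := by
      have h2 : ε ^ 2 * n ≤ n := he2.trans he1
      calc d * (ε ^ 2 * n) ≤ d * n := by gcongr
        _ ≤ c * n := by gcongr
    linarith
  have x2 : Real.exp (K * (4 * Real.log n ^ 2)) * Real.exp (-(ε * s / 4)) ≤ E := by
    rw [hE, ← Real.exp_add]
    apply Real.exp_le_exp.mpr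
    have h3 : d * (ε ^ 2 * n) ≤ ε * s / 4 := by
      have h4 : ε * n / (2 * 10 ^ 12) ≤ s := by
        have h5 : 1 ≤ ε * n / (2 * 10 ^ 12) := by
          rw [le_div_iff₀ (by norm_num)]
          linarith
        have h6 : ε * n / 10 ^ 12 = ε * n / (2 * 10 ^ 12) + ε * n / (2 * 10 ^ 12) := by ring
        linarith
      calc d * (ε ^ 2 * n) ≤ 1 / (8 * 10 ^ 12) * (ε ^ 2 * n) := by gcongr
        _ = ε * (ε * n / (2 * 10 ^ 12)) / 4 := by ring
        _ ≤ ε * s / 4 := by gcongr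
    linarith
  have hcN := hup (n + 2 * i) (by omega)
  have hE0 : 0 ≤ E := by rw [hE]; positivity
  have hln := hlow n
  have y1 : C₀ * Real.exp (-(c * n)) * ((SW (n + 2 * i)).card : ℝ) ≤
      4 * C₀ * E * (((SW n).card : ℝ) * μ ^ (2 * i)) := by
    calc C₀ * Real.exp (-(c * n)) * ((SW (n + 2 * i)).card : ℝ)
        ≤ C₀ * Real.exp (-(c * n)) * (B * μ ^ (n + 2 * i)) := by gcongr
      _ = 4 * C₀ * (Real.exp (K * (4 * Real.log n ^ 2)) * Real.exp (-(c * n))) *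
          (μ ^ n * μ ^ (2 * i)) := by rw [hB, pow_add]; ring
      _ ≤ 4 * C₀ * E * (((SW n).card : ℝ) * μ ^ (2 * i)) := by gcongr
  have y2 : B * Real.exp (-(ε * s / 4)) * μ ^ (n + 2 * i) ≤
      4 * E * (((SW n).card : ℝ) * μ ^ (2 * i)) := by
    calc B * Real.exp (-(ε * s / 4)) * μ ^ (n + 2 * i)
        = 4 * (Real.exp (K * (4 * Real.log n ^ 2)) * Real.exp (-(ε * s / 4))) *
          (μ ^ n * μ ^ (2 * i)) := by rw [hB, pow_add]; ring
      _ ≤ 4 * E * (((SW n).card : ℝ) * μ ^ (2 * i)) := by gcongr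
  calc _ ≤ 4 * C₀ * E * (((SW n).card : ℝ) * μ ^ (2 * i)) +
        (4 * E * (((SW n).card : ℝ) * μ ^ (2 * i)) +
          4 * E * (((SW n).card : ℝ) * μ ^ (2 * i))) :=
        add_le_add (uF.trans y1) (add_le_add (uA.trans y2) (uB.trans y2))
    _ = (4 * C₀ + 8) * E * ((SW n).card : ℝ) * μ ^ (2 * i) := by ring
    _ = _ := by rw [hE]

end

end Pool.Agent.N929.EZ
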