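import Pool.Agent.N929.EZ.Wid

/-!
# Powers of quantities that grow by hits
-/

set_option autoImplicit false
set_option linter.unusedVariables false

namespace Pool.Agent.N929.EZ

open Finset
open scoped Classical

noncomputable section

/-- a function of `x`, `x + 1` or `x + 2`, according to the number of hits -/
theorem Rp.two_hits {E : Finset (ℤ × ℤ)} (c c' : (ℤ × ℤ) → Prop) (f : ℝ → ℝ) (x : ℝ) :
    Rp E (fun U => f (x + (if (∃ q ∈ U, c q) then 1 else 0) +
      (if (∃ q ∈ U, c' q) then 1 else 0)))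
      (|f x| + 4 * |f (x + 1)| + 4 * |f (x + 2)|) := by
  have h0 : ∀ c : (ℤ × ℤ) → Prop, Rp E (fun U => 1 - (if (∃ q ∈ U, c q) then (1 : ℝ) else 0)) 1 := by
    intro c
    have h := Rp.ind (E := E) (T := E.filter c) (filter_subset _ _)
    refine h.congr (fun U hU => ?_)
    have e : Disjoint (E.filter c) U ↔ ¬ ∃ q ∈ U, c q := by
      rw [disjoint_left]
      constructor
      · rintro h1 ⟨q, hq, hc⟩
        exact h1 (mem_filter.2 ⟨hU hq, hc⟩) hq
      · intro h1 q hq hq'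
        exact h1 ⟨q, hq', (mem_filter.1 hq).2⟩
    by_cases h1 : ∃ q ∈ U, c q
    · simp [e, h1]
    · simp [e, h1]
  have hc := Rp.hit (E := E) c
  have hc' := Rp.hit (E := E) c'
  have a1 := ((h0 c).mul (h0 c')).smul (f x)
  have a2 := (((h0 c).mul hc').add (hc.mul (h0 c'))).smul (f (x + 1))
  have a3 := (hc.mul hc').smul (f (x + 2))
  refine (((a1.add a2).add a3).mono (le_of_eq ?_)).congr (fun U hU => ?_)
  · ring
  · by_cases h1 : ∃ q ∈ U, c q <;> by_cases h2 : ∃ q ∈ U, c' q <;> simp [h1, h2]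
    congr 1
    ring

/-- the power function near `x ≥ 1` -/
theorem rpow_near {x y p : ℝ} (hx : 1 ≤ x) (h1 : x ≤ y) (hp : 0 ≤ p) :
    |x ^ p| + 4 * |(x + 1) ^ p| + 4 * |(x + 2) ^ p| ≤ 9 * 3 ^ p * y ^ p := by
  have hx0 : 0 < x := by linarith
  rw [abs_of_nonneg (by positivity), abs_of_nonneg (by positivity), abs_of_nonneg (by positivity)]
  have h3 : (x + 2) ^ p ≤ 3 ^ p * y ^ p := by
    rw [← Real.mul_rpow (by norm_num) (by linarith)]
    exact Real.rpow_le_rpow (by linarith) (by linarith) hp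
  have h2 : (x + 1) ^ p ≤ (x + 2) ^ p := Real.rpow_le_rpow (by linarith) (by linarith) hp
  have h4 : x ^ p ≤ (x + 2) ^ p := Real.rpow_le_rpow (by linarith) (by linarith) hp
  nlinarith

theorem rpow_poly {x p : ℝ} {n : ℕ} (hx : 1 ≤ x) (hp : 0 ≤ p) (hn : x ≤ (n : ℝ) + 1) :
    x ^ p ≤ ((n : ℝ) + 1) ^ ⌈p⌉₊ := by
  calc x ^ p ≤ x ^ ((⌈p⌉₊ : ℕ) : ℝ) := Real.rpow_le_rpow_of_exponent_le hx (Nat.le_ceil p)
    _ = x ^ ⌈p⌉₊ := Real.rpow_natCast _ _
    _ ≤ _ := pow_le_pow_left₀ (by linarith) hn _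

end

end Pool.Agent.N929.EZ
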